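import Mathlib

/-!
Continued fraction words, the Gauss map and elementary estimates.
-/

namespace Pool.Agent.Q274.CF

noncomputable section

/-- Gauss map -/
def T (y : ℝ) : ℝ := Int.fract (1 / y)

/-- the Möbius map of a word -/
def F : List ℕ → ℝ → ℝ
  | [], u => u
  | a :: w, u => 1 / (a + F w u)

/-- the denominator of a word -/
def D : List ℕ → ℝ → ℝ
  | [], _ => 1
  | a :: w, u => (a + F w u) * D w u

/-- words of positive digits -/
def Pos (w : List ℕ) : Prop := ∀ a ∈ w, 1 ≤ a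

theorem Pos.nil : Pos [] := by intro a h; simp at h

theorem Pos.cons {a : ℕ} {w : List ℕ} (ha : 1 ≤ a) (hw : Pos w) : Pos (a :: w) := by
  intro b hb
  rcases List.mem_cons.mp hb with h | h
  · rw [h]; exact ha
  · exact hw b h

theorem Pos.head {a : ℕ} {w : List ℕ} (h : Pos (a :: w)) : 1 ≤ a := h a (by simp)

theorem Pos.tail {a : ℕ} {w : List ℕ} (h : Pos (a :: w)) : Pos w := fun b hb => h b (by simp [hb])

theorem Pos.append {w v : List ℕ} (hw : Pos w) (hv : Pos v) : Pos (w ++ v) := by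
  intro a ha
  rcases List.mem_append.mp ha with h | h
  · exact hw a h
  · exact hv a h

theorem Pos.left {w v : List ℕ} (h : Pos (w ++ v)) : Pos w :=
  fun a ha => h a (List.mem_append.mpr (Or.inl ha))

theorem Pos.right {w v : List ℕ} (h : Pos (w ++ v)) : Pos v :=
  fun a ha => h a (List.mem_append.mpr (Or.inr ha))

theorem Pos.drop {w : List ℕ} (h : Pos w) (n : ℕ) : Pos (w.drop n) :=
  fun a ha => h a (List.mem_of_mem_drop ha)

theorem Pos.replicate {a : ℕ} (ha : 1 ≤ a) (n : ℕ) : Pos (List.replicate n a) := by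
  intro b hb
  rw [List.eq_of_mem_replicate hb]; exact ha

theorem F_mem {w : List ℕ} (hw : Pos w) {u : ℝ} (h0 : 0 ≤ u) (h1 : u ≤ 1) :
    0 ≤ F w u ∧ F w u ≤ 1 := by
  induction w with
  | nil => exact ⟨h0, h1⟩
  | cons a w ih =>
    obtain ⟨h2, h3⟩ := ih hw.tail
    have ha : (1 : ℝ) ≤ a := by exact_mod_cast hw.head
    constructor
    · show 0 ≤ 1 / ((a : ℝ) + F w u)
      positivity
    · show 1 / ((a : ℝ) + F w u) ≤ 1
      rw [div_le_one (by linarith)]
      linarith

theorem F_open {w : List ℕ} (hw : Pos w) {u : ℝ} (h0 : 0 < u) (h1 : u < 1) :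
    0 < F w u ∧ F w u < 1 := by
  induction w with
  | nil => exact ⟨h0, h1⟩
  | cons a w ih =>
    obtain ⟨h2, h3⟩ := ih hw.tail
    have ha : (1 : ℝ) ≤ a := by exact_mod_cast hw.head
    constructor
    · show 0 < 1 / ((a : ℝ) + F w u)
      positivity
    · show 1 / ((a : ℝ) + F w u) < 1
      rw [div_lt_one (by linarith)]
      linarith

theorem D_pos {w : List ℕ} (hw : Pos w) {u : ℝ} (h0 : 0 ≤ u) (h1 : u ≤ 1) : 0 < D w u := by
  induction w with
  | nil => exact one_pos
  | cons a w ih =>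
    have h2 := (F_mem hw.tail h0 h1).1
    have ha : (1 : ℝ) ≤ a := by exact_mod_cast hw.head
    have h3 := ih hw.tail
    show 0 < ((a : ℝ) + F w u) * D w u
    positivity

theorem F_sub {w : List ℕ} (hw : Pos w) {u v : ℝ} (h0 : 0 ≤ u) (h1 : u ≤ 1) (h0' : 0 ≤ v)
    (h1' : v ≤ 1) : F w u - F w v = (-1) ^ w.length * (u - v) / (D w u * D w v) := by
  induction w with
  | nil => simp [F, D]
  | cons a w ih =>
    have e := ih hw.tail
    have ha : (1 : ℝ) ≤ a := by exact_mod_cast hw.head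
    have h2 := (F_mem hw.tail h0 h1).1
    have h3 := (F_mem hw.tail h0' h1').1
    have h4 := D_pos hw.tail h0 h1
    have h5 := D_pos hw.tail h0' h1'
    have h6 : (a : ℝ) + F w u ≠ 0 := by positivity
    have h7 : (a : ℝ) + F w v ≠ 0 := by positivity
    show 1 / ((a : ℝ) + F w u) - 1 / ((a : ℝ) + F w v) =
      (-1) ^ (w.length + 1) * (u - v) / (((a : ℝ) + F w u) * D w u * (((a : ℝ) + F w v) * D w v))
    have e2 : 1 / ((a : ℝ) + F w u) - 1 / ((a : ℝ) + F w v) =
      -(F w u - F w v) / (((a : ℝ) + F w u) * ((a : ℝ) + F w v)) := by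
      field_simp
      ring
    rw [e2, e]
    field_simp
    ring

theorem F_append (w v : List ℕ) (u : ℝ) : F (w ++ v) u = F w (F v u) := by
  induction w with
  | nil => rfl
  | cons a w ih =>
    show 1 / ((a : ℝ) + F (w ++ v) u) = 1 / ((a : ℝ) + F w (F v u))
    rw [ih]

theorem D_append (w v : List ℕ) (u : ℝ) : D (w ++ v) u = D w (F v u) * D v u := by
  induction w with
  | nil => simp [D]
  | cons a w ih =>
    show ((a : ℝ) + F (w ++ v) u) * D (w ++ v) u = ((a : ℝ) + F w (F v u)) * D w (F v u) * D v u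
    rw [ih, F_append]
    ring

theorem D_ge_one {w : List ℕ} (hw : Pos w) {u : ℝ} (h0 : 0 ≤ u) (h1 : u ≤ 1) : 1 ≤ D w u := by
  induction w with
  | nil => exact le_refl 1
  | cons a w ih =>
    have h2 := (F_mem hw.tail h0 h1).1
    have ha : (1 : ℝ) ≤ a := by exact_mod_cast hw.head
    have h3 := ih hw.tail
    show 1 ≤ ((a : ℝ) + F w u) * D w u
    nlinarith

theorem D_ge {w : List ℕ} (hw : Pos w) {u : ℝ} (h0 : 0 ≤ u) (h1 : u ≤ 1) :
    (2 : ℝ) ^ (w.length / 2) ≤ D w u := by
  induction h : w.length using Nat.strong_induction_on generalizing w with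
  | _ n ih =>
    match w, h with
    | [], h =>
      have : n = 0 := by simpa using h.symm
      subst this
      simp [D]
    | [a], h =>
      have : n = 1 := by simpa using h.symm
      subst this
      have := D_ge_one hw h0 h1
      simpa using this
    | a :: b :: w, h =>
      have hn : n = w.length + 2 := by simpa using h.symm
      have h2 := ih w.length (by omega) (w := w) hw.tail.tail rfl
      have h3 := (F_mem hw.tail.tail h0 h1).1
      have ha : (1 : ℝ) ≤ a := by exact_mod_cast hw.head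
      have hb : (1 : ℝ) ≤ b := by exact_mod_cast hw.tail.head
      have h4 := D_pos hw.tail.tail h0 h1
      have e : D (a :: b :: w) u = ((a : ℝ) * (b + F w u) + 1) * D w u := by
        show ((a : ℝ) + 1 / ((b : ℝ) + F w u)) * (((b : ℝ) + F w u) * D w u) = _
        have : (b : ℝ) + F w u ≠ 0 := by positivity
        field_simp
      rw [e, hn]
      have e2 : (w.length + 2) / 2 = w.length / 2 + 1 := by omega
      rw [e2, pow_succ]
      have h5 : (2 : ℝ) ≤ (a : ℝ) * (b + F w u) + 1 := by nlinarith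
      nlinarith

theorem D_ones_le (L : ℕ) {u : ℝ} (h0 : 0 ≤ u) (h1 : u ≤ 1) :
    D (List.replicate L 1) u ≤ 2 ^ L := by
  induction L with
  | zero => simp [D]
  | succ L ih =>
    rw [List.replicate_succ]
    have h2 := F_mem (Pos.replicate (le_refl 1) L) h0 h1
    have h3 := D_pos (Pos.replicate (le_refl 1) L) h0 h1
    show (((1 : ℕ) : ℝ) + F (List.replicate L 1) u) * D (List.replicate L 1) u ≤ 2 ^ (L + 1)
    rw [pow_succ]
    push_cast
    nlinarith [h2.1, h2.2]

theorem F_abs_sub {w : List ℕ} (hw : Pos w) {u v : ℝ} (h0 : 0 ≤ u) (h1 : u ≤ 1) (h0' : 0 ≤ v)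
    (h1' : v ≤ 1) : |F w u - F w v| = |u - v| / (D w u * D w v) := by
  rw [F_sub hw h0 h1 h0' h1', abs_div, abs_mul, abs_pow, abs_neg, abs_one, one_pow, one_mul,
    abs_of_pos (mul_pos (D_pos hw h0 h1) (D_pos hw h0' h1'))]

theorem F_contract {w : List ℕ} (hw : Pos w) {u v : ℝ} (h0 : 0 ≤ u) (h1 : u ≤ 1) (h0' : 0 ≤ v)
    (h1' : v ≤ 1) : |F w u - F w v| ≤ (1 / 4) ^ (w.length / 2) := by
  rw [F_abs_sub hw h0 h1 h0' h1']
  have h2 := D_ge hw h0 h1
  have h3 := D_ge hw h0' h1'
  have h4 : |u - v| ≤ 1 := by rw [abs_le]; constructor <;> linarith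
  have h5 : (0 : ℝ) < 2 ^ (w.length / 2) := by positivity
  have h7 := D_pos hw h0 h1
  have h8 := D_pos hw h0' h1'
  have h6 : (4 : ℝ) ^ (w.length / 2) ≤ D w u * D w v := by
    have : (4 : ℝ) ^ (w.length / 2) = 2 ^ (w.length / 2) * 2 ^ (w.length / 2) := by
      rw [← mul_pow]; norm_num
    rw [this]
    exact mul_le_mul h2 h3 h5.le (by linarith)
  calc |u - v| / (D w u * D w v) ≤ 1 / (4 : ℝ) ^ (w.length / 2) := by
        apply div_le_div₀ (by norm_num) h4 (by positivity) h6
    _ = (1 / 4) ^ (w.length / 2) := by rw [one_div_pow]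

theorem F_cont {w : List ℕ} (hw : Pos w) : ContinuousOn (F w) (Set.Icc 0 1) := by
  induction w with
  | nil => exact continuousOn_id
  | cons a w ih =>
    have h1 := ih hw.tail
    show ContinuousOn (fun u => 1 / ((a : ℝ) + F w u)) (Set.Icc 0 1)
    apply ContinuousOn.div continuousOn_const (continuousOn_const.add h1)
    intro u hu
    have h2 := (F_mem hw.tail hu.1 hu.2).1
    have ha : (1 : ℝ) ≤ a := by exact_mod_cast hw.head
    show (a : ℝ) + F w u ≠ 0
    positivity

theorem F_inj {w : List ℕ} (hw : Pos w) {u v : ℝ} (h0 : 0 ≤ u) (h1 : u ≤ 1) (h0' : 0 ≤ v)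
    (h1' : v ≤ 1) (h : F w u = F w v) : u = v := by
  have h2 := F_abs_sub hw h0 h1 h0' h1'
  rw [h, sub_self, abs_zero] at h2
  have h3 := mul_pos (D_pos hw h0 h1) (D_pos hw h0' h1')
  have h4 : |u - v| = 0 := by
    rcases (div_eq_zero_iff.mp h2.symm) with h | h
    · exact h
    · exact absurd h h3.ne'
  exact sub_eq_zero.mp (abs_eq_zero.mp h4)

theorem T_F {a : ℕ} {w : List ℕ} {u : ℝ} (hw : Pos w) (h0 : 0 < u) (h1 : u < 1) :
    T (F (a :: w) u) = F w u := by
  obtain ⟨h2, h3⟩ := F_open hw h0 h1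
  show Int.fract (1 / (1 / ((a : ℝ) + F w u))) = F w u
  rw [one_div_one_div, Int.fract_natCast_add]
  exact Int.fract_eq_self.mpr ⟨h2.le, h3⟩

theorem T_iter {w : List ℕ} (hw : Pos w) {u : ℝ} (h0 : 0 < u) (h1 : u < 1) (j : ℕ)
    (hj : j ≤ w.length) : T^[j] (F w u) = F (w.drop j) u := by
  induction j generalizing w with
  | zero => simp
  | succ j ih =>
    match w, hj with
    | [], hj => simp at hj
    | a :: w, hj =>
      rw [Function.iterate_succ_apply, T_F hw.tail h0 h1, List.drop_succ_cons]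
      exact ih hw.tail (by simpa using hj)

/-- irrational numbers in the open unit interval -/
def Irr (x : ℝ) : Prop := Irrational x ∧ 0 < x ∧ x < 1

theorem Irr.T {x : ℝ} (hx : Irr x) : Irr (T x) := by
  have h1 : Irrational (1 / x) := by
    rw [one_div]; exact hx.1.inv
  have h2 : Irrational (Int.fract (1 / x)) := by
    rw [← Int.self_sub_floor]
    exact h1.sub_intCast _
  refine ⟨h2, ?_, Int.fract_lt_one _⟩
  rcases lt_or_eq_of_le (Int.fract_nonneg (1 / x)) with h | h
  · exact h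
  · exfalso
    rw [← h] at h2
    exact h2 ⟨0, by simp⟩

theorem Irr.iter {x : ℝ} (hx : Irr x) (n : ℕ) : Irr (Q274.CF.T^[n] x) := by
  induction n with
  | zero => exact hx
  | succ n ih => rw [Function.iterate_succ_apply']; exact ih.T

/-- first digit -/
def dg (x : ℝ) : ℕ := ⌊1 / x⌋₊

theorem Irr.dg_pos {x : ℝ} (hx : Irr x) : 1 ≤ dg x := by
  rw [dg, Nat.one_le_floor_iff]
  rw [le_div_iff₀ hx.2.1, one_mul]
  exact hx.2.2.le

theorem Irr.eq {x : ℝ} (hx : Irr x) : x = 1 / (dg x + Q274.CF.T x) := by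
  have h1 : ((dg x : ℕ) : ℝ) = ((⌊1 / x⌋ : ℤ) : ℝ) := by
    rw [dg, ← Int.natCast_floor_eq_floor (by have := hx.2.1; positivity)]
    simp
  have h2 : (dg x : ℝ) + Q274.CF.T x = 1 / x := by
    rw [h1, Q274.CF.T]
    exact Int.floor_add_fract _
  rw [h2, one_div_one_div]

/-- first `n` digits -/
def wd (x : ℝ) : ℕ → List ℕ
  | 0 => []
  | n + 1 => dg x :: wd (T x) n

theorem wd_length (x : ℝ) (n : ℕ) : (wd x n).length = n := by
  induction n generalizing x with
  | zero => rfl
  | succ n ih => rw [wd, List.length_cons, ih]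

theorem Irr.wd_pos {x : ℝ} (hx : Irr x) (n : ℕ) : Pos (wd x n) := by
  induction n generalizing x with
  | zero => exact Pos.nil
  | succ n ih => exact Pos.cons hx.dg_pos (ih hx.T)

theorem Irr.wd_eq {x : ℝ} (hx : Irr x) (n : ℕ) : F (wd x n) (Q274.CF.T^[n] x) = x := by
  induction n generalizing x with
  | zero => rfl
  | succ n ih =>
    rw [Function.iterate_succ_apply]
    show 1 / ((dg x : ℝ) + F (wd (Q274.CF.T x) n) _) = x
    rw [ih hx.T]
    exact hx.eq.symm

theorem F_rat (w : List ℕ) (q : ℚ) : ∃ r : ℚ, F w q = r := by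
  induction w with
  | nil => exact ⟨q, rfl⟩
  | cons a w ih =>
    obtain ⟨r, hr⟩ := ih
    refine ⟨1 / (a + r), ?_⟩
    show 1 / ((a : ℝ) + F w q) = _
    rw [hr]; push_cast; rfl

/-- initial segment of a digit sequence -/
def pre (a : ℕ → ℕ) (n : ℕ) : List ℕ := (List.range n).map a

theorem pre_succ (a : ℕ → ℕ) (n : ℕ) : pre a (n + 1) = pre a n ++ [a n] := by
  rw [pre, List.range_succ, List.map_append]; rfl

theorem pre_pos {a : ℕ → ℕ} (ha : ∀ n, 1 ≤ a n) (n : ℕ) : Pos (pre a n) := by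
  intro b hb
  rw [pre, List.mem_map] at hb
  obtain ⟨i, _, rfl⟩ := hb
  exact ha i

/-- every digit sequence is realised -/
theorem exists_tails (a : ℕ → ℕ) (ha : ∀ n, 1 ≤ a n) :
    ∃ t : ℕ → ℝ, (∀ n, 0 < t n ∧ t n < 1) ∧ (∀ n, t n = 1 / (a n + t (n + 1))) ∧
      ∀ n, F (pre a n) (t n) = t 0 := by
  have hK : (⋂ n, F (pre a n) '' Set.Icc 0 1).Nonempty := by
    apply IsCompact.nonempty_iInter_of_sequence_nonempty_isCompact_isClosed
    · intro n
      rintro _ ⟨u, hu, rfl⟩
      rw [pre_succ, F_append]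
      exact ⟨F [a n] u, F_mem (Pos.cons (ha n) Pos.nil) hu.1 hu.2, rfl⟩
    · intro n
      exact ⟨_, ⟨0, by simp, rfl⟩⟩
    · exact isCompact_Icc.image_of_continuousOn (F_cont (pre_pos ha 0))
    · intro n
      exact (isCompact_Icc.image_of_continuousOn (F_cont (pre_pos ha n))).isClosed
  obtain ⟨x, hx⟩ := hK
  rw [Set.mem_iInter] at hx
  choose t ht htx using hx
  have h1 : ∀ n, t n = 1 / (a n + t (n + 1)) := by
    intro n
    have h2 := htx (n + 1)
    rw [pre_succ, F_append, ← htx n] at h2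
    have h3 := F_mem (Pos.cons (ha n) Pos.nil) (ht (n + 1)).1 (ht (n + 1)).2
    exact (F_inj (pre_pos ha n) h3.1 h3.2 (ht n).1 (ht n).2 h2).symm
  have h2 : ∀ n, 0 < t n := by
    intro n
    rw [h1 n]
    have : (1 : ℝ) ≤ a n := by exact_mod_cast ha n
    have := (ht (n + 1)).1
    positivity
  have h3 : ∀ n, t n < 1 := by
    intro n
    rw [h1 n]
    have h4 : (1 : ℝ) ≤ a n := by exact_mod_cast ha n
    have h5 := h2 (n + 1)
    rw [div_lt_one (by linarith)]
    linarith
  have h0 : t 0 = x := htx 0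
  exact ⟨t, fun n => ⟨h2 n, h3 n⟩, h1, fun n => by rw [h0]; exact htx n⟩

theorem T_tails {a : ℕ → ℕ} {t : ℕ → ℝ} (h0 : ∀ n, 0 < t n ∧ t n < 1)
    (h1 : ∀ n, t n = 1 / (a n + t (n + 1))) (n : ℕ) : T^[n] (t 0) = t n := by
  induction n with
  | zero => rfl
  | succ n ih =>
    rw [Function.iterate_succ_apply', ih, T]
    conv_lhs => rw [h1 n]
    rw [one_div_one_div, Int.fract_natCast_add]
    exact Int.fract_eq_self.mpr ⟨(h0 (n + 1)).1.le, (h0 (n + 1)).2⟩

/-- a real number in the unit interval whose orbit stays positive is irrational -/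
theorem irr_of_orbit {x : ℝ} (hx : ∀ n, 0 < T^[n] x) : Irrational x := by
  rintro ⟨q, rfl⟩
  have key : ∀ (n : ℕ) (q : ℚ), 0 ≤ q → q.num.natAbs ≤ n → ∃ m, T^[m] (q : ℝ) ≤ 0 := by
    intro n
    induction n with
    | zero =>
      intro q hq hn
      have : q = 0 := by
        rw [← Rat.num_eq_zero]; omega
      exact ⟨0, by rw [this]; simp⟩
    | succ n ih =>
      intro q hq hn
      by_cases h0 : q = 0
      · exact ⟨0, by rw [h0]; simp⟩
      have hq' : 0 < q := lt_of_le_of_ne hq (Ne.symm h0)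
      obtain ⟨m, hm⟩ := ih (Int.fract (1 / q)) (Int.fract_nonneg _) (by
        have h1 : (Int.fract (q⁻¹)).num < q⁻¹.den := by
          have h2 := Int.fract_lt_one (q⁻¹)
          have h3 : (Int.fract (q⁻¹)).den = q⁻¹.den := by
            rw [← Int.self_sub_floor]
            exact Rat.sub_intCast_den _ _
          rw [Rat.lt_iff] at h2
          rw [h3] at h2
          simpa using h2
        have h4 : q⁻¹.den = q.num.natAbs := Rat.den_inv_of_ne_zero h0
        rw [one_div]
        have h5 : 0 ≤ (Int.fract (q⁻¹)).num := Rat.num_nonneg.mpr (Int.fract_nonneg _)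
        omega)
      refine ⟨m + 1, ?_⟩
      rw [Function.iterate_succ_apply]
      have : T (q : ℝ) = ((Int.fract (1 / q) : ℚ) : ℝ) := by
        rw [T, Rat.cast_fract]
        push_cast
        rfl
      rw [this]
      exact hm
  obtain ⟨m, hm⟩ := key (q.num.natAbs) q (by
    have := hx 0
    have h2 : (0 : ℝ) < q := this
    exact_mod_cast h2.le) le_rfl
  exact absurd (hx m) (not_lt.mpr hm)

end

end Pool.Agent.Q274.CF
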