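import Pool.Agent.Q274.CF.Gauss

/-!
Words whose orbits are nearly equidistributed.
-/

namespace Pool.Agent.Q274.CF

open Set Filter Topology

noncomputable section

theorem G_nonneg {t : ℝ} (h0 : 0 ≤ t) : 0 ≤ G t := by
  have := G_mono (le_refl 0) h0
  rwa [G_zero] at this

theorem G_le_one {t : ℝ} (h0 : 0 ≤ t) (h1 : t ≤ 1) : G t ≤ 1 := by
  have := G_mono h0 h1
  rwa [G_one] at this

theorem cnt_le (m : ℕ) (t x : ℝ) : cnt m t x ≤ m := by
  rw [cnt]
  exact (Finset.card_filter_le _ _).trans (by rw [Finset.card_range])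

theorem cnt_add (m n : ℕ) (t x : ℝ) : cnt (m + n) t x = cnt m t x + cnt n t (T^[m] x) := by
  have : (cnt (m + n) t x : ℝ) = cnt m t x + cnt n t (T^[m] x) := by
    rw [cnt_eq, cnt_eq, cnt_eq, Finset.sum_range_add]
    congr 1
    refine Finset.sum_congr rfl fun j _ => ?_
    rw [← Function.iterate_add_apply, add_comm m j]
  exact_mod_cast this

theorem cnt_mono (m : ℕ) {s t : ℝ} (h : s ≤ t) (x : ℝ) : cnt m s x ≤ cnt m t x := by
  apply Finset.card_le_card
  intro j hj
  rw [Finset.mem_filter] at hj ⊢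
  exact ⟨hj.1, hj.2.trans_le h⟩

/-- discrepancy bound of a word, uniform in the tail -/
def Dc (w : List ℕ) (e : ℝ) : Prop :=
  ∀ τ : ℝ, 0 < τ → τ < 1 → ∀ t : ℝ, 0 ≤ t → t ≤ 1 →
    |(cnt w.length t (F w τ) : ℝ) - w.length * G t| ≤ e

theorem T_len {w : List ℕ} (hw : Pos w) {τ : ℝ} (h0 : 0 < τ) (h1 : τ < 1) :
    T^[w.length] (F w τ) = τ := by
  rw [T_iter hw h0 h1 _ le_rfl, List.drop_length]
  rfl

theorem cnt_append {w v : List ℕ} (hw : Pos w) (hv : Pos v) {τ : ℝ} (h0 : 0 < τ) (h1 : τ < 1)
    (t : ℝ) : cnt (w ++ v).length t (F (w ++ v) τ) =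
      cnt w.length t (F w (F v τ)) + cnt v.length t (F v τ) := by
  obtain ⟨h2, h3⟩ := F_open hv h0 h1
  rw [List.length_append, cnt_add, F_append, T_len hw h2 h3]

theorem Dc.append {w v : List ℕ} (hw : Pos w) (hv : Pos v) {e e' : ℝ} (h : Dc w e)
    (h' : Dc v e') : Dc (w ++ v) (e + e') := by
  intro τ h0 h1 t t0 t1
  rw [cnt_append hw hv h0 h1]
  obtain ⟨h2, h3⟩ := F_open hv h0 h1
  have h4 := h _ h2 h3 t t0 t1
  have h5 := h' τ h0 h1 t t0 t1
  have e1 : ((cnt w.length t (F w (F v τ)) + cnt v.length t (F v τ) : ℕ) : ℝ) -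
      ((w ++ v).length : ℝ) * G t =
      ((cnt w.length t (F w (F v τ)) : ℝ) - w.length * G t) +
      ((cnt v.length t (F v τ) : ℝ) - v.length * G t) := by
    rw [List.length_append]
    push_cast; ring
  rw [e1]
  exact (abs_add_le _ _).trans (add_le_add h4 h5)

theorem Dc.mono {w : List ℕ} {e e' : ℝ} (h : Dc w e) (he : e ≤ e') : Dc w e' :=
  fun τ h0 h1 t t0 t1 => (h τ h0 h1 t t0 t1).trans he

theorem Dc.triv (w : List ℕ) : Dc w w.length := by
  intro τ _ _ t t0 t1
  have h1 : (cnt w.length t (F w τ) : ℝ) ≤ w.length := by exact_mod_cast cnt_le _ _ _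
  have h2 : (0 : ℝ) ≤ cnt w.length t (F w τ) := Nat.cast_nonneg _
  have h3 := G_nonneg t0
  have h4 := G_le_one t0 t1
  have h5 : (0 : ℝ) ≤ w.length := Nat.cast_nonneg _
  rw [abs_le]
  constructor <;> nlinarith

/-- change of the tail -/
theorem tail_up {x : ℝ} (hx : Irr x) (m l : ℕ) {δ : ℝ} (hδ : (1 / 4 : ℝ) ^ (l / 2) ≤ δ)
    {τ : ℝ} (h0 : 0 < τ) (h1 : τ < 1) (t : ℝ) :
    cnt m t (F (wd x m) τ) ≤ cnt m (t + δ) x + l ∧ cnt m (t - δ) x ≤ cnt m t (F (wd x m) τ) + l := by
  have hw := hx.wd_pos m
  have hlen := wd_length x m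
  have hxm := hx.iter m
  have close : ∀ j, j < m - l → |T^[j] (F (wd x m) τ) - T^[j] x| ≤ δ := by
    intro j hj
    have e1 : T^[j] (F (wd x m) τ) = F ((wd x m).drop j) τ :=
      T_iter hw h0 h1 j (by rw [hlen]; omega)
    have e2 : T^[j] x = F ((wd x m).drop j) (T^[m] x) := by
      conv_lhs => rw [← hx.wd_eq m]
      exact T_iter hw hxm.2.1 hxm.2.2 j (by rw [hlen]; omega)
    rw [e1, e2]
    refine (F_contract (hw.drop j) h0.le h1.le hxm.2.1.le hxm.2.2.le).trans (le_trans ?_ hδ)
    apply pow_le_pow_of_le_one (by norm_num) (by norm_num)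
    rw [List.length_drop, hlen]
    omega
  have split : ∀ (P R : ℕ → Prop) [DecidablePred P] [DecidablePred R],
      (∀ j, j < m - l → P j → R j) →
      ((Finset.range m).filter P).card ≤ ((Finset.range m).filter R).card + l := by
    intro P R _ _ h
    have h2 : (Finset.range m).filter P ⊆ (Finset.range m).filter R ∪ Finset.Ico (m - l) m := by
      intro j hj
      rw [Finset.mem_filter, Finset.mem_range] at hj
      rw [Finset.mem_union, Finset.mem_filter, Finset.mem_range, Finset.mem_Ico]
      by_cases hjl : j < m - l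
      · left; exact ⟨hj.1, h j hjl hj.2⟩
      · right; omega
    refine (Finset.card_le_card h2).trans ((Finset.card_union_le _ _).trans ?_)
    rw [Nat.card_Ico]
    omega
  constructor
  · apply split
    intro j hj hlt
    have := close j hj
    rw [abs_le] at this
    linarith [this.1]
  · apply split
    intro j hj hlt
    have := close j hj
    rw [abs_le] at this
    linarith [this.2]

/-- concatenation of the words of a sample -/
def Wc (x : ℕ → ℝ) (m : ℕ) : ℕ → List ℕ
  | 0 => []
  | N + 1 => Wc x m N ++ wd (x N) m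

theorem Wc_pos {x : ℕ → ℝ} (hx : ∀ n, Irr (x n)) (m N : ℕ) : Pos (Wc x m N) := by
  induction N with
  | zero => exact Pos.nil
  | succ N ih => exact ih.append ((hx N).wd_pos m)

theorem Wc_len (x : ℕ → ℝ) (m N : ℕ) : (Wc x m N).length = N * m := by
  induction N with
  | zero => simp [Wc]
  | succ N ih => rw [Wc, List.length_append, ih, wd_length]; ring

theorem Wc_bound {x : ℕ → ℝ} (hx : ∀ n, Irr (x n)) (m l N : ℕ) {δ : ℝ}
    (hδ : (1 / 4 : ℝ) ^ (l / 2) ≤ δ) {τ : ℝ} (h0 : 0 < τ) (h1 : τ < 1) (t : ℝ) :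
    cnt (N * m) t (F (Wc x m N) τ) ≤ ∑ n ∈ Finset.range N, cnt m (t + δ) (x n) + N * l ∧
    ∑ n ∈ Finset.range N, cnt m (t - δ) (x n) ≤ cnt (N * m) t (F (Wc x m N) τ) + N * l := by
  induction N generalizing τ with
  | zero => simp [cnt]
  | succ N ih =>
    have hw := (hx N).wd_pos m
    obtain ⟨h2, h3⟩ := F_open hw h0 h1
    obtain ⟨h4, h5⟩ := ih h2 h3
    obtain ⟨h6, h7⟩ := tail_up (hx N) m l hδ h0 h1 t
    have e := cnt_append (Wc_pos hx m N) hw h0 h1 t
    have e1 : (Wc x m N ++ wd (x N) m).length = (N + 1) * m := by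
      rw [List.length_append, Wc_len, wd_length]; ring
    rw [e1, Wc_len, wd_length] at e
    have e2 : F (Wc x m (N + 1)) τ = F (Wc x m N ++ wd (x N) m) τ := rfl
    rw [e2, e, Finset.sum_range_succ, Finset.sum_range_succ, add_mul, one_mul]
    constructor <;> omega

/-- **good blocks** -/
theorem exists_block (ε : ℝ) (hε : 0 < ε) : ∃ W : List ℕ, Pos W ∧ W ≠ [] ∧ Dc W (ε * W.length) := by
  -- parameters
  obtain ⟨K, hK⟩ : ∃ K : ℕ, 16 / ε < K := exists_nat_gt _
  have hK0 : (0 : ℝ) < K := lt_trans (by positivity) hK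
  have hKn : 0 < K := by exact_mod_cast hK0
  obtain ⟨l, hl⟩ : ∃ l : ℕ, (1 / 4 : ℝ) ^ (l / 2) ≤ 1 / K := by
    obtain ⟨n, hn⟩ := exists_pow_lt_of_lt_one (show (0 : ℝ) < 1 / K by positivity)
      (show (1 / 4 : ℝ) < 1 by norm_num)
    refine ⟨2 * n, ?_⟩
    have : 2 * n / 2 = n := by omega
    rw [this]
    exact hn.le
  obtain ⟨m, hm⟩ : ∃ m : ℕ, 4 * (l + 1) / ε < m := exists_nat_gt _
  have hm0 : (0 : ℝ) < m := lt_trans (by positivity) hm
  have hmn : 0 < m := by exact_mod_cast hm0
  obtain ⟨x, hx, hlim⟩ := exists_sample m K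
  -- a common large N
  have hN : ∀ᶠ N : ℕ in atTop, ∀ i ∈ Finset.range (K + 1),
      |(∑ n ∈ Finset.range N, (cnt m ((i : ℝ) / K) (x n) : ℝ)) / N - m * G (i / K)| ≤ 1 := by
    rw [Filter.eventually_all_finset]
    intro i hi
    have h1 := hlim i (by rw [Finset.mem_range] at hi; omega)
    have h2 := (Metric.tendsto_nhds.mp h1) 1 one_pos
    filter_upwards [h2] with N hN
    rw [Real.dist_eq] at hN
    exact hN.le
  obtain ⟨N, hN, hN1⟩ := (hN.and (eventually_ge_atTop 1)).exists
  have hN0 : (0 : ℝ) < N := by exact_mod_cast hN1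
  have hS : ∀ i ≤ K, |(∑ n ∈ Finset.range N, (cnt m ((i : ℝ) / K) (x n) : ℝ)) -
      N * (m * G (i / K))| ≤ N := by
    intro i hi
    have h1 := hN i (by rw [Finset.mem_range]; omega)
    have h2 : (∑ n ∈ Finset.range N, (cnt m ((i : ℝ) / K) (x n) : ℝ)) - N * (m * G (i / K)) =
        N * ((∑ n ∈ Finset.range N, (cnt m ((i : ℝ) / K) (x n) : ℝ)) / N - m * G (i / K)) := by
      field_simp
    rw [h2, abs_mul, abs_of_pos hN0]
    nlinarith
  refine ⟨Wc x m N, Wc_pos hx m N, ?_, ?_⟩
  · intro h
    have := Wc_len x m N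
    rw [h, List.length_nil] at this
    have : 0 < N * m := Nat.mul_pos (by omega) hmn
    omega
  · intro τ h0 h1 t t0 t1
    rw [Wc_len]
    obtain ⟨hu, hd⟩ := Wc_bound hx m l N hl h0 h1 t
    set c := cnt (N * m) t (F (Wc x m N) τ) with hc
    -- grid
    set i := ⌊t * K⌋₊ with hi
    have hi1 : (i : ℝ) ≤ t * K := Nat.floor_le (by positivity)
    have hi2 : t * K < i + 1 := Nat.lt_floor_add_one _
    have hiK : i ≤ K := by
      have : (i : ℝ) ≤ K := hi1.trans (by nlinarith)
      exact_mod_cast this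
    have hm2 : 4 * ((l : ℝ) + 1) < ε * m := by
      rw [div_lt_iff₀ hε] at hm; linarith
    have hK2 : 16 < ε * K := by
      rw [div_lt_iff₀ hε] at hK; linarith
    have hK3 : 4 / (K : ℝ) ≤ ε / 4 := by
      rw [div_le_div_iff₀ hK0 (by norm_num)]
      linarith
    have hNm : (0 : ℝ) < N * m := by positivity
    have hNl : (N : ℝ) * l ≤ ε / 4 * (N * m) := by
      have : (l : ℝ) ≤ ε / 4 * m := by linarith
      nlinarith
    have hN1' : (N : ℝ) ≤ ε / 4 * (N * m) := by
      have h2 : (1 : ℝ) ≤ ε / 4 * m := by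
        have : (0 : ℝ) ≤ l := Nat.cast_nonneg l
        linarith
      nlinarith
    -- upper bound
    have up : (c : ℝ) ≤ N * m * G t + ε * (N * m) := by
      set k := min (i + 2) K with hk
      have hkK : k ≤ K := min_le_right _ _
      have h2 : ∀ n, cnt m (t + 1 / K) (x n) ≤ cnt m ((k : ℝ) / K) (x n) := by
        intro n
        by_cases h : i + 2 ≤ K
        · apply cnt_mono
          have e : k = i + 2 := min_eq_left h
          rw [e, le_div_iff₀ hK0, add_mul, one_div, inv_mul_cancel₀ hK0.ne']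
          push_cast
          linarith
        · have e : k = K := min_eq_right (by omega)
          rw [e, div_self hK0.ne']
          have h3 : cnt m 1 (x n) = m := by
            rw [cnt, Finset.filter_true_of_mem, Finset.card_range]
            intro j _
            exact ((hx n).iter j).2.2
          rw [h3]
          exact cnt_le _ _ _
      have h3 : (c : ℝ) ≤ (∑ n ∈ Finset.range N, (cnt m ((k : ℝ) / K) (x n) : ℝ)) + N * l := by
        have h4 : c ≤ ∑ n ∈ Finset.range N, cnt m ((k : ℝ) / K) (x n) + N * l :=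
          hu.trans (Nat.add_le_add_right (Finset.sum_le_sum fun n _ => h2 n) _)
        exact_mod_cast h4
      have h5 := hS k hkK
      rw [abs_le] at h5
      have h6 : G (k / K) ≤ G t + 4 / K := by
        by_cases h : t ≤ k / K
        · have h7 := G_lip t0 h
          have h8 : (k : ℝ) / K ≤ t + 2 / K := by
            have h9 : (k : ℝ) ≤ i + 2 := by exact_mod_cast min_le_left _ _
            rw [div_le_iff₀ hK0, add_mul, div_mul_cancel₀ _ hK0.ne']
            linarith
          have h10 : (4 : ℝ) / K = 2 * (2 / K) := by ring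
          linarith
        · push Not at h
          have h7 := G_mono (by positivity) h.le
          have : (0 : ℝ) ≤ 4 / K := by positivity
          linarith
      have h7 : (N : ℝ) * (m * G (k / K)) ≤ N * m * G t + ε / 4 * (N * m) := by
        have : (m : ℝ) * G (k / K) ≤ m * (G t + ε / 4) := by
          apply mul_le_mul_of_nonneg_left _ hm0.le
          linarith
        nlinarith
      linarith [h5.2]
    -- lower bound
    have low : N * m * G t - ε * (N * m) ≤ (c : ℝ) := by
      set k := i - 1 with hk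
      have hkK : k ≤ K := by omega
      have h2 : ∀ n, cnt m ((k : ℝ) / K) (x n) ≤ cnt m (t - 1 / K) (x n) := by
        intro n
        by_cases h : 1 ≤ i
        · apply cnt_mono
          have e : (k : ℝ) = i - 1 := by
            rw [hk]; push_cast [h]; ring
          rw [e, div_le_iff₀ hK0, sub_mul, one_div, inv_mul_cancel₀ hK0.ne']
          linarith
        · have e : k = 0 := by omega
          rw [e]
          have h3 : cnt m (((0 : ℕ) : ℝ) / K) (x n) = 0 := by
            rw [cnt, Finset.card_eq_zero, Finset.filter_eq_empty_iff]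
            intro j _
            have := ((hx n).iter j).2.1
            push_cast
            rw [zero_div]
            linarith
          rw [h3]
          exact Nat.zero_le _
      have h3 : (∑ n ∈ Finset.range N, (cnt m ((k : ℝ) / K) (x n) : ℝ)) ≤ c + N * l := by
        have h4 : ∑ n ∈ Finset.range N, cnt m ((k : ℝ) / K) (x n) ≤ c + N * l :=
          (Finset.sum_le_sum fun n _ => h2 n).trans hd
        exact_mod_cast h4
      have h5 := hS k hkK
      rw [abs_le] at h5
      have h6 : G t ≤ G (k / K) + 4 / K := by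
        have h8 : t ≤ k / K + 2 / K := by
          have h9 : (i : ℝ) ≤ k + 1 := by
            have : i ≤ k + 1 := by omega
            exact_mod_cast this
          rw [← add_div, le_div_iff₀ hK0]
          linarith
        by_cases h : (k : ℝ) / K ≤ t
        · have h7 := G_lip (by positivity) h
          have h10 : (4 : ℝ) / K = 2 * (2 / K) := by ring
          linarith
        · push Not at h
          have h7 := G_mono t0 h.le
          have : (0 : ℝ) ≤ 4 / K := by positivity
          linarith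
      have h7 : N * m * G t - ε / 4 * (N * m) ≤ (N : ℝ) * (m * G (k / K)) := by
        have : (m : ℝ) * (G t - ε / 4) ≤ m * G (k / K) := by
          apply mul_le_mul_of_nonneg_left _ hm0.le
          linarith
        nlinarith
      linarith [h5.1]
    rw [abs_le]
    push_cast
    constructor <;> linarith

end

end Pool.Agent.Q274.CF
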