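import Pool.Agent.Q274.CF.Basic

/-!
The Gauss measure is invariant; sampling.
-/

namespace Pool.Agent.Q274.CF

open MeasureTheory Set Filter Topology ProbabilityTheory

noncomputable section

/-- distribution function of the Gauss measure -/
def G (t : ℝ) : ℝ := Real.log (1 + t) / Real.log 2

theorem log2_pos : 0 < Real.log 2 := Real.log_pos (by norm_num)

theorem G_zero : G 0 = 0 := by simp [G]

theorem G_one : G 1 = 1 := by
  rw [G]
  norm_num

theorem G_mono {s t : ℝ} (hs : 0 ≤ s) (h : s ≤ t) : G s ≤ G t := by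
  rw [G, G]
  apply div_le_div_of_nonneg_right _ log2_pos.le
  exact Real.log_le_log (by linarith) (by linarith)

theorem G_lip {s t : ℝ} (hs : 0 ≤ s) (h : s ≤ t) : G t - G s ≤ 2 * (t - s) := by
  rw [G, G, ← sub_div, div_le_iff₀ log2_pos, ← Real.log_div (by linarith) (by linarith)]
  have h1 : Real.log ((1 + t) / (1 + s)) ≤ (1 + t) / (1 + s) - 1 :=
    Real.log_le_sub_one_of_pos (div_pos (by linarith) (by linarith))
  have h2 : (1 + t) / (1 + s) - 1 ≤ t - s := by
    rw [div_sub_one (by linarith), div_le_iff₀ (by linarith)]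
    nlinarith
  have h3 : (0.69 : ℝ) < Real.log 2 := by
    have := Real.log_two_gt_d9
    linarith
  nlinarith

/-- quantile function -/
def Q (u : ℝ) : ℝ := 2 ^ u - 1

theorem Q_cont : Continuous Q := by
  unfold Q
  exact (Real.continuous_const_rpow (by norm_num)).sub continuous_const

theorem Q_le_iff {u t : ℝ} (ht : -1 < t) : Q u ≤ t ↔ u ≤ G t := by
  rw [Q, G, le_div_iff₀ log2_pos, sub_le_iff_le_add, Real.le_log_iff_exp_le (by linarith),
    Real.rpow_def_of_pos (by norm_num), mul_comm u, add_comm t]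

theorem le_Q_iff {u t : ℝ} (ht : -1 < t) : t ≤ Q u ↔ G t ≤ u := by
  rw [Q, G, div_le_iff₀ log2_pos, le_sub_iff_add_le, Real.log_le_iff_le_exp (by linarith),
    Real.rpow_def_of_pos (by norm_num), mul_comm u, add_comm t]

/-- the Gauss measure -/
def γ : Measure ℝ := Measure.map Q (volume.restrict (Icc 0 1))

instance : IsProbabilityMeasure (volume.restrict (Icc (0 : ℝ) 1)) := by
  constructor
  rw [Measure.restrict_apply_univ, Real.volume_Icc]
  norm_num

instance : IsProbabilityMeasure γ :=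
  Measure.isProbabilityMeasure_map Q_cont.measurable.aemeasurable

theorem γ_Icc {s t : ℝ} (hs : 0 ≤ s) (hst : s ≤ t) (ht : t ≤ 1) :
    γ (Icc s t) = ENNReal.ofReal (G t - G s) := by
  rw [γ, Measure.map_apply Q_cont.measurable measurableSet_Icc,
    Measure.restrict_apply (Q_cont.measurable measurableSet_Icc)]
  have e : Q ⁻¹' Icc s t ∩ Icc 0 1 = Icc (G s) (G t) := by
    ext u
    simp only [mem_inter_iff, mem_preimage, mem_Icc]
    rw [le_Q_iff (by linarith), Q_le_iff (by linarith)]
    constructor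
    · rintro ⟨h, -⟩; exact h
    · rintro ⟨h1, h2⟩
      have h3 := G_mono (le_refl 0) hs
      have h4 := G_mono (hs.trans hst) ht
      rw [G_zero] at h3
      rw [G_one] at h4
      exact ⟨⟨h1, h2⟩, h3.trans h1, h2.trans h4⟩
  rw [e, Real.volume_Icc]

theorem γ_unit : γ (Icc 0 1) = 1 := by
  rw [γ_Icc le_rfl zero_le_one le_rfl, G_one, G_zero]; simp

theorem γ_compl : γ (Icc 0 1)ᶜ = 0 := by
  rw [prob_compl_eq_zero_iff measurableSet_Icc]; exact γ_unit

theorem γ_eq_of {s t : Set ℝ} (h : s ∩ Icc 0 1 = t ∩ Icc 0 1) : γ s = γ t := by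
  have key : ∀ s t : Set ℝ, s ∩ Icc 0 1 = t ∩ Icc 0 1 → γ s ≤ γ t := by
    intro s t h
    have : s ⊆ t ∪ (Icc 0 1)ᶜ := by
      intro x hx
      by_cases hx1 : x ∈ Icc (0 : ℝ) 1
      · left
        have : x ∈ s ∩ Icc 0 1 := ⟨hx, hx1⟩
        rw [h] at this
        exact this.1
      · right; exact hx1
    calc γ s ≤ γ (t ∪ (Icc 0 1)ᶜ) := measure_mono this
      _ ≤ γ t + γ (Icc 0 1)ᶜ := measure_union_le _ _
      _ = γ t := by rw [γ_compl, add_zero]
  exact le_antisymm (key s t h) (key t s h.symm)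

theorem γ_Iic {t : ℝ} (h0 : 0 ≤ t) (h1 : t ≤ 1) : γ (Iic t) = ENNReal.ofReal (G t) := by
  have e : γ (Iic t) = γ (Icc 0 t) := by
    apply γ_eq_of
    ext x
    simp only [mem_inter_iff, mem_Iic, mem_Icc]
    tauto
  rw [e, γ_Icc le_rfl h0 h1, G_zero, sub_zero]

theorem γ_singleton (x : ℝ) : γ {x} = 0 := by
  rw [γ, Measure.map_apply Q_cont.measurable (measurableSet_singleton x)]
  have : (Q ⁻¹' {x}).Countable := by
    apply Set.Subsingleton.countable
    intro a ha b hb
    have h1 : Q a = Q b := by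
      rw [mem_preimage, mem_singleton_iff] at ha hb
      rw [ha, hb]
    have h2 : (2 : ℝ) ^ a = 2 ^ b := by
      unfold Q at h1
      linarith
    exact (Real.rpow_right_inj (by norm_num) (by norm_num)).mp h2
  exact this.measure_zero _

instance : NullSingletonClass γ := ⟨γ_singleton⟩

theorem T_meas : Measurable T := by
  unfold T
  exact measurable_fract.comp (measurable_const.div measurable_id)

/-- the telescoping function -/
def hh (t : ℝ) (a : ℕ) : ℝ := (Real.log (a + 1) - Real.log (a + 1 + t)) / Real.log 2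

theorem hh_diff {t : ℝ} (h0 : 0 ≤ t) (a : ℕ) :
    hh t (a + 1) - hh t a = G (1 / (a + 1)) - G (1 / (a + 1 + t)) := by
  have ha : (0 : ℝ) ≤ a := Nat.cast_nonneg a
  rw [hh, hh, G, G, ← sub_div, ← sub_div]
  congr 1
  have e1 : 1 + 1 / ((a : ℝ) + 1) = (a + 1 + 1) / (a + 1) := by field_simp
  have e2 : 1 + 1 / ((a : ℝ) + 1 + t) = (a + 1 + 1 + t) / (a + 1 + t) := by field_simp; ring
  rw [e1, e2, Real.log_div (by positivity) (by positivity),
    Real.log_div (by positivity) (by positivity)]
  push_cast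
  ring

theorem hh_lim {t : ℝ} (h0 : 0 ≤ t) : Tendsto (hh t) atTop (𝓝 0) := by
  have h1 : ∀ a : ℕ, hh t a = - (Real.log (1 + t / (a + 1)) / Real.log 2) := by
    intro a
    have ha : (0 : ℝ) ≤ a := Nat.cast_nonneg a
    have e1 : 1 + t / ((a : ℝ) + 1) = (a + 1 + t) / (a + 1) := by field_simp
    rw [hh, e1, Real.log_div (by positivity) (by positivity)]
    ring
  have h2 : Tendsto (fun a : ℕ => 1 + t / ((a : ℝ) + 1)) atTop (𝓝 1) := by
    have : Tendsto (fun a : ℕ => t / ((a : ℝ) + 1)) atTop (𝓝 0) := by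
      apply Tendsto.div_atTop tendsto_const_nhds
      exact tendsto_atTop_add_const_right _ _ tendsto_natCast_atTop_atTop
    simpa using this.const_add 1
  have h3 := (Real.continuousAt_log (x := 1) one_ne_zero).tendsto.comp h2
  rw [Real.log_one] at h3
  have h4 := (h3.div_const (Real.log 2)).neg
  rw [zero_div, neg_zero] at h4
  exact h4.congr fun a => (h1 a).symm

theorem hh_sum {t : ℝ} (h0 : 0 ≤ t) :
    HasSum (fun a : ℕ => G (1 / (a + 1)) - G (1 / (a + 1 + t))) (G t) := by
  rw [hasSum_iff_tendsto_nat_of_nonneg]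
  · have h1 : ∀ n, ∑ a ∈ Finset.range n, (G (1 / (a + 1)) - G (1 / (a + 1 + t))) =
        hh t n - hh t 0 := by
      intro n
      rw [← Finset.sum_range_sub]
      exact Finset.sum_congr rfl fun a _ => (hh_diff h0 a).symm
    have h2 : hh t 0 = - G t := by
      rw [hh, G]
      simp
      ring
    have h3 := (hh_lim h0).sub_const (hh t 0)
    rw [h2] at h3
    have h4 : (0 : ℝ) - -G t = G t := by ring
    rw [h4] at h3
    refine h3.congr fun n => ?_
    rw [h1, h2]
  · intro a
    have ha : (0 : ℝ) ≤ a := Nat.cast_nonneg a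
    rw [sub_nonneg]
    apply G_mono (by positivity)
    apply one_div_le_one_div_of_le (by positivity)
    linarith

theorem pre_T {t : ℝ} (h0 : 0 ≤ t) (h1 : t < 1) :
    (T ⁻¹' Iic t) ∩ Ioc 0 1 = ⋃ a : ℕ, Icc (1 / ((a : ℝ) + 1 + t)) (1 / ((a : ℝ) + 1)) := by
  ext x
  simp only [mem_inter_iff, mem_preimage, mem_Iic, mem_Ioc, mem_iUnion, mem_Icc]
  constructor
  · rintro ⟨h2, h3, h4⟩
    have h5 : 1 ≤ 1 / x := by rw [le_div_iff₀ h3]; linarith
    have h6 : 1 ≤ ⌊1 / x⌋ := Int.le_floor.mpr (by exact_mod_cast h5)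
    obtain ⟨a, ha⟩ : ∃ a : ℕ, ⌊1 / x⌋ = a + 1 := ⟨(⌊1 / x⌋ - 1).toNat, by omega⟩
    have h7 : T x = 1 / x - (a + 1) := by
      rw [T, ← Int.self_sub_floor, ha]
      push_cast; ring
    have h8 := Int.floor_le (1 / x)
    rw [ha] at h8
    push_cast at h8
    refine ⟨a, ?_, ?_⟩
    · rw [h7] at h2
      rw [div_le_iff₀ (by positivity)]
      have h9 : 1 / x ≤ a + 1 + t := by linarith
      rwa [div_le_iff₀ h3, mul_comm] at h9
    · rw [le_div_iff₀ (by positivity)]
      rwa [le_div_iff₀ h3, mul_comm] at h8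
  · rintro ⟨a, h2, h3⟩
    have ha : (0 : ℝ) ≤ a := Nat.cast_nonneg a
    have hx : 0 < x := lt_of_lt_of_le (by positivity) h2
    have h4 : 1 / x ≤ a + 1 + t := by
      rw [div_le_iff₀ hx, mul_comm]
      rwa [div_le_iff₀ (by positivity)] at h2
    have h5 : (a : ℝ) + 1 ≤ 1 / x := by
      rw [le_div_iff₀ hx, mul_comm]
      rwa [le_div_iff₀ (by positivity)] at h3
    have h6 : ⌊1 / x⌋ = (a : ℤ) + 1 := by
      rw [Int.floor_eq_iff]
      push_cast
      constructor <;> linarith
    refine ⟨?_, hx, ?_⟩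
    · rw [T, ← Int.self_sub_floor, h6]
      push_cast
      linarith
    · refine h3.trans ?_
      rw [div_le_one (by positivity)]
      linarith

theorem T_pres : MeasurePreserving T γ γ := by
  refine ⟨T_meas, ?_⟩
  have : IsFiniteMeasure (Measure.map T γ) := Measure.isFiniteMeasure_map γ T
  apply Measure.ext_of_Iic
  intro t
  rw [Measure.map_apply T_meas measurableSet_Iic]
  rcases lt_or_ge t 0 with h0 | h0
  · have e1 : T ⁻¹' Iic t = ∅ := by
      ext x
      simp only [mem_preimage, mem_Iic, mem_empty_iff_false, iff_false, not_le]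
      exact lt_of_lt_of_le h0 (Int.fract_nonneg _)
    have e2 : γ (Iic t) = γ ∅ := by
      apply γ_eq_of
      ext x
      simp only [mem_inter_iff, mem_Iic, mem_Icc, mem_empty_iff_false, false_and, iff_false]
      rintro ⟨h1, h2, -⟩
      linarith
    rw [e1, e2]
  rcases lt_or_ge t 1 with h1 | h1
  · rw [γ_Iic h0 h1.le]
    have e : γ (T ⁻¹' Iic t) = γ ((T ⁻¹' Iic t) ∩ Ioc 0 1) := by
      have h2 : γ (T ⁻¹' Iic t) = γ ((T ⁻¹' Iic t) ∩ Icc 0 1) := by
        apply γ_eq_of
        ext x; simp only [mem_inter_iff]; tauto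
      rw [h2]
      apply le_antisymm
      · have : (T ⁻¹' Iic t) ∩ Icc 0 1 ⊆ ((T ⁻¹' Iic t) ∩ Ioc 0 1) ∪ {0} := by
          rintro x ⟨hx, hx0, hx1⟩
          rcases eq_or_lt_of_le hx0 with h | h
          · right; exact h.symm
          · left; exact ⟨hx, h, hx1⟩
        calc γ ((T ⁻¹' Iic t) ∩ Icc 0 1) ≤ γ (((T ⁻¹' Iic t) ∩ Ioc 0 1) ∪ {0}) := measure_mono this
          _ ≤ γ ((T ⁻¹' Iic t) ∩ Ioc 0 1) + γ {0} := measure_union_le _ _
          _ = _ := by rw [γ_singleton, add_zero]
      · exact measure_mono (inter_subset_inter_right _ Ioc_subset_Icc_self)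
    rw [e, pre_T h0 h1, measure_iUnion]
    · have h3 : ∀ a : ℕ, γ (Icc (1 / ((a : ℝ) + 1 + t)) (1 / ((a : ℝ) + 1))) =
          ENNReal.ofReal (G (1 / (a + 1)) - G (1 / (a + 1 + t))) := by
        intro a
        have ha : (0 : ℝ) ≤ a := Nat.cast_nonneg a
        apply γ_Icc (by positivity)
        · apply one_div_le_one_div_of_le (by positivity)
          linarith
        · rw [div_le_one (by positivity)]
          linarith
      simp only [h3]
      have h4 := hh_sum h0
      rw [← ENNReal.ofReal_tsum_of_nonneg _ h4.summable, h4.tsum_eq]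
      intro a
      have ha : (0 : ℝ) ≤ a := Nat.cast_nonneg a
      rw [sub_nonneg]
      apply G_mono (by positivity)
      apply one_div_le_one_div_of_le (by positivity)
      linarith
    · intro a b hab
      rw [Function.onFun, Set.disjoint_left]
      rintro x ⟨h2, h3⟩ ⟨h4, h5⟩
      have ha : (0 : ℝ) ≤ a := Nat.cast_nonneg a
      have hb : (0 : ℝ) ≤ b := Nat.cast_nonneg b
      rcases lt_or_gt_of_ne hab with h | h
      · have h6 : (a : ℝ) + 1 ≤ b := by exact_mod_cast h
        have h7 : 1 / ((b : ℝ) + 1) < 1 / ((a : ℝ) + 1 + t) :=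
          one_div_lt_one_div_of_lt (by positivity) (by linarith)
        linarith
      · have h6 : (b : ℝ) + 1 ≤ a := by exact_mod_cast h
        have h7 : 1 / ((a : ℝ) + 1) < 1 / ((b : ℝ) + 1 + t) :=
          one_div_lt_one_div_of_lt (by positivity) (by linarith)
        linarith
    · intro a; exact measurableSet_Icc
  · have e1 : T ⁻¹' Iic t = univ := by
      ext x
      simp only [mem_preimage, mem_Iic, mem_univ, iff_true]
      exact (Int.fract_lt_one _).le.trans h1
    have e2 : γ (Iic t) = γ univ := by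
      apply γ_eq_of
      ext x
      simp only [mem_inter_iff, mem_Iic, mem_Icc, mem_univ, true_and]
      constructor
      · rintro ⟨-, h⟩; exact h
      · rintro ⟨h2, h3⟩; exact ⟨h3.trans h1, h2, h3⟩
    rw [e1, e2]

theorem γ_Iio {t : ℝ} (h0 : 0 ≤ t) (h1 : t ≤ 1) : γ (Iio t) = ENNReal.ofReal (G t) := by
  rw [← γ_Iic h0 h1]
  exact measure_congr Iio_ae_eq_Iic

theorem ae_irr : ∀ᵐ x ∂γ, Irr x := by
  have h1 : ∀ᵐ x ∂γ, x ∈ Icc (0 : ℝ) 1 := by
    rw [ae_iff]
    exact γ_compl
  have h2 : ∀ᵐ x ∂γ, Irrational x := by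
    rw [ae_iff]
    have : {x : ℝ | ¬ Irrational x}.Countable := by
      have e : {x : ℝ | ¬ Irrational x} = Set.range ((↑) : ℚ → ℝ) := by
        ext x; simp [Irrational]
      rw [e]
      exact Set.countable_range _
    exact this.measure_zero _
  filter_upwards [h1, h2] with x hx hx2
  refine ⟨hx2, lt_of_le_of_ne hx.1 ?_, lt_of_le_of_ne hx.2 ?_⟩
  · rintro rfl; exact hx2 ⟨0, by simp⟩
  · rintro rfl; exact hx2 ⟨1, by simp⟩

/-- number of visits below `t` -/
def cnt (m : ℕ) (t x : ℝ) : ℕ := ((Finset.range m).filter (fun j => T^[j] x < t)).card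

theorem cnt_eq (m : ℕ) (t x : ℝ) :
    (cnt m t x : ℝ) = ∑ j ∈ Finset.range m, (Iio t).indicator (fun _ => (1 : ℝ)) (T^[j] x) := by
  rw [cnt, Finset.card_filter]
  push_cast
  refine Finset.sum_congr rfl fun j _ => ?_
  by_cases h : T^[j] x < t
  · rw [if_pos h, indicator_of_mem (by exact h)]
  · rw [if_neg h, indicator_of_notMem (by exact h)]

theorem cnt_meas (m : ℕ) (t : ℝ) : Measurable (fun x => (cnt m t x : ℝ)) := by
  have : (fun x => (cnt m t x : ℝ)) = fun x =>
      ∑ j ∈ Finset.range m, (Iio t).indicator (fun _ => (1 : ℝ)) (T^[j] x) := by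
    funext x; exact cnt_eq m t x
  rw [this]
  apply Finset.measurable_sum
  intro j _
  exact (measurable_const.indicator measurableSet_Iio).comp (T_meas.iterate j)

theorem cnt_int (m : ℕ) {t : ℝ} (h0 : 0 ≤ t) (h1 : t ≤ 1) :
    Integrable (fun x => (cnt m t x : ℝ)) γ ∧ ∫ x, (cnt m t x : ℝ) ∂γ = m * G t := by
  have hI : ∀ j, Integrable (fun x => (Iio t).indicator (fun _ => (1 : ℝ)) (T^[j] x)) γ := by
    intro j
    have h2 : Integrable ((Iio t).indicator (fun _ => (1 : ℝ))) γ :=
      (integrable_const 1).indicator measurableSet_Iio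
    exact (T_pres.iterate j).integrable_comp_of_integrable h2
  have e : (fun x => (cnt m t x : ℝ)) = fun x =>
      ∑ j ∈ Finset.range m, (Iio t).indicator (fun _ => (1 : ℝ)) (T^[j] x) := by
    funext x; exact cnt_eq m t x
  constructor
  · rw [e]
    exact integrable_finsetSum _ fun j _ => hI j
  · rw [e, integral_finsetSum _ fun j _ => hI j]
    have h3 : ∀ j ∈ Finset.range m,
        ∫ x, (Iio t).indicator (fun _ => (1 : ℝ)) (T^[j] x) ∂γ = G t := by
      intro j _
      have h5 : ∫ x, (Iio t).indicator (fun _ => (1 : ℝ)) (T^[j] x) ∂γ =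
          ∫ x, (Iio t).indicator (fun _ => (1 : ℝ)) x ∂γ := by
        conv_rhs => rw [← (T_pres.iterate j).map_eq]
        rw [integral_map (T_meas.iterate j).aemeasurable]
        exact (measurable_const.indicator measurableSet_Iio).aestronglyMeasurable
      rw [h5, integral_indicator measurableSet_Iio, setIntegral_const, smul_eq_mul, mul_one,
        Measure.real, γ_Iio h0 h1, ENNReal.toReal_ofReal]
      have := G_mono (le_refl 0) h0
      rwa [G_zero] at this
    rw [Finset.sum_congr rfl h3, Finset.sum_const, Finset.card_range, nsmul_eq_mul]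

/-- sampling: a sequence of irrational points whose counts have the right averages -/
theorem exists_sample (m K : ℕ) : ∃ x : ℕ → ℝ, (∀ n, Irr (x n)) ∧
    ∀ i ≤ K, Tendsto (fun N : ℕ => (∑ n ∈ Finset.range N, (cnt m ((i : ℝ) / K) (x n) : ℝ)) / N)
      atTop (𝓝 (m * G (i / K))) := by
  let P : Measure (ℕ → ℝ) := Measure.infinitePi (fun _ => γ)
  have hmp : ∀ n, MeasurePreserving (fun ω : ℕ → ℝ => ω n) P γ := fun n =>
    measurePreserving_eval_infinitePi (fun _ => γ) n
  have h1 : ∀ᵐ ω ∂P, ∀ n, Irr (ω n) := by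
    rw [ae_all_iff]
    intro n
    exact (hmp n).quasiMeasurePreserving.ae ae_irr
  have h2 : ∀ᵐ ω ∂P, ∀ i : ℕ, i ≤ K →
      Tendsto (fun N : ℕ => (∑ n ∈ Finset.range N, (cnt m ((i : ℝ) / K) (ω n) : ℝ)) / N)
      atTop (𝓝 (m * G (i / K))) := by
    rw [ae_all_iff]
    intro i
    by_cases hi : i ≤ K
    · have h01 : (0 : ℝ) ≤ (i : ℝ) / K ∧ (i : ℝ) / K ≤ 1 := by
        constructor
        · positivity
        · apply div_le_one_of_le₀ _ (Nat.cast_nonneg K)
          exact_mod_cast hi
      obtain ⟨hint, hval⟩ := cnt_int m h01.1 h01.2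
      have h3 := strong_law_ae_real (μ := P)
        (fun n ω => (cnt m ((i : ℝ) / K) (ω n) : ℝ))
        ((hmp 0).integrable_comp_of_integrable hint)
        (by
          intro a b hab
          exact (iIndepFun_infinitePi (P := fun _ : ℕ => γ)
            (X := fun _ x => (cnt m ((i : ℝ) / K) x : ℝ))
            (fun _ => cnt_meas m _)).indepFun hab)
        (by
          intro n
          refine ⟨?_, ?_, ?_⟩
          · exact ((cnt_meas m _).comp (measurable_pi_apply n)).aemeasurable
          · exact ((cnt_meas m _).comp (measurable_pi_apply 0)).aemeasurable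
          · have e1 : Measure.map (fun ω : ℕ → ℝ => (cnt m ((i : ℝ) / K) (ω n) : ℝ)) P =
                Measure.map (fun x => (cnt m ((i : ℝ) / K) x : ℝ)) γ := by
              rw [← (hmp n).map_eq, Measure.map_map (cnt_meas m _) (measurable_pi_apply n)]
              rfl
            have e2 : Measure.map (fun ω : ℕ → ℝ => (cnt m ((i : ℝ) / K) (ω 0) : ℝ)) P =
                Measure.map (fun x => (cnt m ((i : ℝ) / K) x : ℝ)) γ := by
              rw [← (hmp 0).map_eq, Measure.map_map (cnt_meas m _) (measurable_pi_apply 0)]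
              rfl
            rw [e1, e2])
      have h4 : ∫ ω, (cnt m ((i : ℝ) / K) (ω 0) : ℝ) ∂P = m * G (i / K) := by
        rw [← hval]
        rw [← (hmp 0).map_eq, integral_map (measurable_pi_apply 0).aemeasurable]
        exact (cnt_meas m _).aestronglyMeasurable
      rw [h4] at h3
      filter_upwards [h3] with ω hω _
      exact hω
    · exact Eventually.of_forall fun ω h => absurd h hi
  obtain ⟨ω, hω1, hω2⟩ := (h1.and h2).exists
  exact ⟨ω, hω1, hω2⟩

end

end Pool.Agent.Q274.CF
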