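import Pool.Agent.Q274.CF.Basic

/-!
One huge partial quotient of `x` prescribes a long block of ones in the expansion of `q x + q`.
-/

namespace Pool.Agent.Q274.CF

open Set Filter Topology

noncomputable section

theorem ones_gap (L : ℕ) : (1 / 4 : ℝ) ^ L ≤
    |F (List.replicate L 1) 0 - F (List.replicate L 1) 1| := by
  have hp := Pos.replicate (le_refl 1) L
  rw [F_abs_sub hp le_rfl zero_le_one zero_le_one le_rfl]
  have h0 := D_pos hp (le_refl (0 : ℝ)) zero_le_one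
  have h1 := D_pos hp (zero_le_one (α := ℝ)) le_rfl
  have h2 := D_ones_le L (le_refl (0 : ℝ)) zero_le_one
  have h3 := D_ones_le L (zero_le_one (α := ℝ)) le_rfl
  rw [zero_sub, abs_neg, abs_one, one_div_pow]
  apply one_div_le_one_div_of_le (mul_pos h0 h1)
  calc D (List.replicate L 1) 0 * D (List.replicate L 1) 1 ≤ 2 ^ L * 2 ^ L :=
        mul_le_mul h2 h3 h1.le (by positivity)
    _ = 4 ^ L := by rw [← mul_pow]; norm_num

theorem alg1 {q d0 a1 a2 v1 v2 b1 b2 : ℝ} (hq : 0 < q) (hd : 0 < d0) (ha1 : 0 < a1)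
    (ha2 : 0 < a2) (hv1 : 0 < v1) (hv2 : 0 < v2) (h1 : b1 = q * v1 / (a1 * d0))
    (h2 : b2 = q * v2 / (a2 * d0)) (h3 : b1 - b2 = q * (v1 - v2) / (a1 * a2)) :
    1 / v1 - 1 / v2 = -((b1 - b2) / (b1 * b2) * (q / d0 ^ 2)) := by
  rw [h3, h1, h2]
  field_simp
  ring

theorem alg2 {c t e0 e1 D0 D1 D2 b1 b2 : ℝ} (hc : 0 < c + t)
    (hc1 : 0 < c + 1 + e0) (hc2 : 0 < c + 1 + e1) (hX1 : 0 < 1 + e0 - t) (hX2 : 0 < 1 + e1 - t)
    (hD0 : 0 < D0) (hD1 : 0 < D1) (hD2 : 0 < D2)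
    (h1 : b1 = (1 + e0 - t) / ((c + t) * (c + 1 + e0)) / (D1 * D0))
    (h2 : b2 = (1 + e1 - t) / ((c + t) * (c + 1 + e1)) / (D2 * D0))
    (h3 : b1 - b2 = (e0 - e1) / ((c + 1 + e0) * (c + 1 + e1)) / (D1 * D2)) :
    (b1 - b2) / (b1 * b2) = (e0 - e1) * (c + t) ^ 2 * D0 ^ 2 / ((1 + e0 - t) * (1 + e1 - t)) := by
  rw [h3, h1, h2]
  generalize c + 1 + e0 = A at *
  generalize c + 1 + e1 = B at *
  generalize 1 + e0 - t = X at *
  generalize 1 + e1 - t = Y at *
  generalize c + t = C at *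
  generalize e0 - e1 = E at *
  field_simp

theorem alg3 {q d C D0 X E L I : ℝ} (hq : 0 < q) (hd : 0 < d) (hX : 0 < X)
    (hX4 : X ≤ 4) (hL : 0 < L) (hI : 0 < I) (h1 : L ≤ E) (h2 : 1 ≤ C) (h3 : I ≤ D0)
    (hbig : 2 ≤ q / (4 * d) * L * I) : 2 ≤ E * C * D0 / X * (q / d) := by
  calc (2 : ℝ) ≤ q / (4 * d) * L * I := hbig
    _ = (L * 1 * I / 4) * (q / d) := by
        field_simp
    _ ≤ (E * C * D0 / X) * (q / d) := by
        apply mul_le_mul_of_nonneg_right _ (by positivity)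
        have hE : 0 < E := hL.trans_le h1
        have hC : 0 < C := one_pos.trans_le h2
        have hD : 0 < D0 := hI.trans_le h3
        apply div_le_div₀ (by positivity) _ hX hX4
        apply mul_le_mul _ h3 (by positivity) (by positivity)
        exact mul_le_mul h1 h2 zero_le_one hE.le

/-- the data at a given precision -/
theorem jump_aux {q : ℝ} (hq : 0 < q) {P : List ℕ} (hP : Pos P) {z c0 : ℝ} (hz : Irr z)
    (hθ : q * F P 0 + q = c0 + z) (i : ℕ) (hpar : (-1 : ℝ) ^ P.length = - (-1) ^ i)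
    (hsmall : (1 / 4 : ℝ) ^ (i / 2) ≤ q / (D P 1 * D P 0))
    (hbig : 2 ≤ q / (4 * D P 0 ^ 2) * (1 / 4) ^ (i / 4 + 1) * 4 ^ (i / 2)) :
    ∃ (W : List ℕ) (M : ℕ), Pos W ∧ 1 ≤ M ∧
      W = wd z i ++ ((dg (T^[i] z) + 1) :: List.replicate (i / 4 + 1) 1) ∧
      ∀ ρ : ℝ, 0 < ρ → ρ < 1 → ∃ τ : ℝ, 0 ≤ τ ∧ τ ≤ 1 ∧
        q * F (P ++ [M]) ρ + q = c0 + F W τ := by
  set L := i / 4 + 1 with hL
  set w := wd z i with hw
  set u0 := T^[i] z with hu0
  have hu0I : Irr u0 := hz.iter i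
  set c := dg u0 with hc
  set t0 := T u0 with ht0
  have ht0I : Irr t0 := hu0I.T
  have hc1 : 1 ≤ c := hu0I.dg_pos
  have hcR : (1 : ℝ) ≤ c := by exact_mod_cast hc1
  have hu0e : u0 = 1 / (c + t0) := hu0I.eq
  have hwp : Pos w := hz.wd_pos i
  have hwz : F w u0 = z := hz.wd_eq i
  have hones := Pos.replicate (le_refl 1) L
  set W := w ++ ((c + 1) :: List.replicate L 1) with hW
  have hWp : Pos W := hwp.append (Pos.cons (by omega) hones)
  -- endpoints
  set e0 := F (List.replicate L 1) 0 with he0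
  set e1 := F (List.replicate L 1) 1 with he1
  have he0m := F_mem hones (le_refl (0 : ℝ)) zero_le_one
  have he1m := F_mem hones (zero_le_one (α := ℝ)) le_rfl
  rw [← he0] at he0m
  rw [← he1] at he1m
  set u1 := 1 / ((c : ℝ) + 1 + e0) with hu1
  set u2 := 1 / ((c : ℝ) + 1 + e1) with hu2
  have hF0 : F W 0 = F w u1 := by
    rw [hW, F_append]
    show F w (1 / (((c + 1 : ℕ) : ℝ) + e0)) = _
    push_cast; rfl
  have hF1 : F W 1 = F w u2 := by
    rw [hW, F_append]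
    show F w (1 / (((c + 1 : ℕ) : ℝ) + e1)) = _
    push_cast; rfl
  have hu1m : 0 ≤ u1 ∧ u1 ≤ 1 := by
    constructor
    · rw [hu1]; have := he0m.1; positivity
    · rw [hu1, div_le_one (by linarith [he0m.1])]; linarith [he0m.1]
  have hu2m : 0 ≤ u2 ∧ u2 ≤ 1 := by
    constructor
    · rw [hu2]; have := he1m.1; positivity
    · rw [hu2, div_le_one (by linarith [he1m.1])]; linarith [he1m.1]
  -- the general fact about endpoints
  have hend : ∀ u e : ℝ, 0 ≤ e → e ≤ 1 → u = 1 / ((c : ℝ) + 1 + e) → 0 ≤ u → u ≤ 1 →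
      0 < u0 - u ∧ u0 - u = (1 + e - t0) / ((c + t0) * (c + 1 + e)) := by
    intro u e h0 h1 hu _ _
    have hh1 := ht0I.2.1
    have hh2 := ht0I.2.2
    have h2 : u0 - u = (1 + e - t0) / ((c + t0) * (c + 1 + e)) := by
      rw [hu0e, hu]
      have : (c : ℝ) + t0 ≠ 0 := by positivity
      have : (c : ℝ) + 1 + e ≠ 0 := by positivity
      field_simp
      ring
    refine ⟨?_, h2⟩
    rw [h2]
    apply div_pos (by linarith)
    positivity
  obtain ⟨hd1, hd1e⟩ := hend u1 e0 he0m.1 he0m.2 rfl hu1m.1 hu1m.2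
  obtain ⟨hd2, hd2e⟩ := hend u2 e1 he1m.1 he1m.2 rfl hu2m.1 hu2m.2
  have hDw0 := D_pos hwp hu0I.2.1.le hu0I.2.2.le
  have hDw1 := D_pos hwp hu1m.1 hu1m.2
  have hDw2 := D_pos hwp hu2m.1 hu2m.2
  set b1 := (u0 - u1) / (D w u1 * D w u0) with hb1
  set b2 := (u0 - u2) / (D w u2 * D w u0) with hb2
  have hb1p : 0 < b1 := div_pos hd1 (mul_pos hDw1 hDw0)
  have hb2p : 0 < b2 := div_pos hd2 (mul_pos hDw2 hDw0)
  set σ : ℝ := (-1) ^ P.length with hσ
  have hσσ : σ * σ = 1 := by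
    rw [hσ, ← mul_pow]; norm_num
  have hlen : w.length = i := wd_length z i
  have hY1 : σ * (F W 0 - z) = b1 := by
    have h2 := F_sub hwp hu1m.1 hu1m.2 hu0I.2.1.le hu0I.2.2.le
    rw [hF0, ← hwz, h2, hlen, hb1]
    have h3 : (-1 : ℝ) ^ i = -σ := by rw [hpar]; ring
    rw [h3]
    have : σ * (-σ * (u1 - u0) / (D w u1 * D w u0)) =
      (σ * σ) * (u0 - u1) / (D w u1 * D w u0) := by ring
    rw [this, hσσ, one_mul]
  have hY2 : σ * (F W 1 - z) = b2 := by
    have h2 := F_sub hwp hu2m.1 hu2m.2 hu0I.2.1.le hu0I.2.2.le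
    rw [hF1, ← hwz, h2, hlen, hb2]
    have h3 : (-1 : ℝ) ^ i = -σ := by rw [hpar]; ring
    rw [h3]
    have : σ * (-σ * (u2 - u0) / (D w u2 * D w u0)) =
      (σ * σ) * (u0 - u2) / (D w u2 * D w u0) := by ring
    rw [this, hσσ, one_mul]
  -- smallness
  have hbs : ∀ u b : ℝ, 0 ≤ u → u ≤ 1 → 0 < u0 - u → b = (u0 - u) / (D w u * D w u0) →
      b ≤ (1 / 4 : ℝ) ^ (i / 2) := by
    intro u b h0 h1 hd hb
    have h2 := F_contract hwp h0 h1 hu0I.2.1.le hu0I.2.2.le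
    rw [F_abs_sub hwp h0 h1 hu0I.2.1.le hu0I.2.2.le, hlen, abs_sub_comm, abs_of_pos hd, ← hb] at h2
    exact h2
  have hb1s := hbs u1 b1 hu1m.1 hu1m.2 hd1 rfl
  have hb2s := hbs u2 b2 hu2m.1 hu2m.2 hd2 rfl
  -- the function g
  have hDP0 := D_pos hP (le_refl (0 : ℝ)) zero_le_one
  have hDP1 := D_pos hP (zero_le_one (α := ℝ)) le_rfl
  set g : ℝ → ℝ := fun v => σ * (q * F P v + q - (c0 + z)) with hg
  have hgd : ∀ v v', 0 ≤ v → v ≤ 1 → 0 ≤ v' → v' ≤ 1 →
      g v - g v' = q * (v - v') / (D P v * D P v') := by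
    intro v v' h0 h1 h0' h1'
    have h2 := F_sub hP h0 h1 h0' h1'
    have h3 : g v - g v' = σ * q * (F P v - F P v') := by rw [hg]; ring
    rw [h3, h2]
    have : σ * q * (σ * (v - v') / (D P v * D P v')) =
      (σ * σ) * (q * (v - v') / (D P v * D P v')) := by ring
    rw [this, hσσ, one_mul]
  have hg0 : g 0 = 0 := by
    show σ * (q * F P 0 + q - (c0 + z)) = 0
    rw [hθ, sub_self, mul_zero]
  have hg1 : g 1 = q / (D P 1 * D P 0) := by
    have h2 := hgd 1 0 zero_le_one le_rfl le_rfl zero_le_one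
    rw [hg0, sub_zero, sub_zero, mul_one] at h2
    exact h2
  have hgc : ContinuousOn g (Icc 0 1) := by
    apply ContinuousOn.mul continuousOn_const
    exact ((continuousOn_const.mul (F_cont hP)).add continuousOn_const).sub continuousOn_const
  have hivt := intermediate_value_Icc (zero_le_one (α := ℝ)) hgc
  rw [hg0, hg1] at hivt
  obtain ⟨v1, hv1, hgv1⟩ := hivt ⟨hb1p.le, hb1s.trans hsmall⟩
  obtain ⟨v2, hv2, hgv2⟩ := hivt ⟨hb2p.le, hb2s.trans hsmall⟩
  have hvpos : ∀ v b, v ∈ Icc (0 : ℝ) 1 → g v = b → 0 < b →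
      0 < v ∧ b = q * v / (D P v * D P 0) := by
    intro v b hv hgv hb
    have h2 := hgd v 0 hv.1 hv.2 le_rfl zero_le_one
    rw [hg0, sub_zero, sub_zero, hgv] at h2
    refine ⟨?_, h2⟩
    rcases eq_or_lt_of_le hv.1 with h | h
    · exfalso
      rw [← h] at hgv
      rw [hg0] at hgv
      linarith
    · exact h
  obtain ⟨hv1p, hb1v⟩ := hvpos v1 b1 hv1 hgv1 hb1p
  obtain ⟨hv2p, hb2v⟩ := hvpos v2 b2 hv2 hgv2 hb2p
  have hDPv1 := D_pos hP hv1.1 hv1.2
  have hDPv2 := D_pos hP hv2.1 hv2.2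
  -- the gap between s1 and s2
  have hgap : 2 ≤ |1 / v1 - 1 / v2| := by
    have k1 : b1 - b2 = q * (v1 - v2) / (D P v1 * D P v2) := by
      rw [← hgv1, ← hgv2]; exact hgd v1 v2 hv1.1 hv1.2 hv2.1 hv2.2
    have k6 : 1 / v1 - 1 / v2 = -((b1 - b2) / (b1 * b2) * (q / D P 0 ^ 2)) :=
      alg1 hq hDP0 hDPv1 hDPv2 hv1p hv2p hb1v hb2v k1
    have k3 : b1 - b2 = (u2 - u1) / (D w u1 * D w u2) := by
      have h2 := F_sub hwp hu1m.1 hu1m.2 hu2m.1 hu2m.2
      have h3 : b1 - b2 = σ * (F w u1 - F w u2) := by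
        rw [← hY1, ← hY2, hF0, hF1]; ring
      rw [h3, h2, hlen]
      have h4 : (-1 : ℝ) ^ i = -σ := by rw [hpar]; ring
      rw [h4]
      have : σ * (-σ * (u1 - u2) / (D w u1 * D w u2)) =
        (σ * σ) * (u2 - u1) / (D w u1 * D w u2) := by ring
      rw [this, hσσ, one_mul]
    have k4 : u2 - u1 = (e0 - e1) / ((c + 1 + e0) * (c + 1 + e1)) := by
      rw [hu1, hu2]
      have := he0m.1
      have := he1m.1
      field_simp
      ring
    have hUU0 : (0 : ℝ) < c + t0 := by have := ht0I.2.1; positivity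
    have hUU1 : (0 : ℝ) < c + 1 + e0 := by have := he0m.1; positivity
    have hUU2 : (0 : ℝ) < c + 1 + e1 := by have := he1m.1; positivity
    have hX1 : 0 < 1 + e0 - t0 := by linarith [ht0I.2.2, he0m.1]
    have hX2 : 0 < 1 + e1 - t0 := by linarith [ht0I.2.2, he1m.1]
    have k5 : (b1 - b2) / (b1 * b2) =
        (e0 - e1) * (c + t0) ^ 2 * D w u0 ^ 2 / ((1 + e0 - t0) * (1 + e1 - t0)) := by
      apply alg2 hUU0 hUU1 hUU2 hX1 hX2 hDw0 hDw1 hDw2
      · rw [hb1, hd1e]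
      · rw [hb2, hd2e]
      · rw [k3, k4]
    rw [k6, abs_neg, abs_mul, k5, abs_div, abs_mul, abs_mul, abs_of_pos (mul_pos hX1 hX2),
      abs_of_pos (show (0 : ℝ) < (c + t0) ^ 2 by positivity),
      abs_of_pos (show (0 : ℝ) < D w u0 ^ 2 by positivity),
      abs_of_pos (show (0 : ℝ) < q / D P 0 ^ 2 by positivity)]
    have g1 := ones_gap L
    rw [← he0, ← he1] at g1
    have g2 : (1 : ℝ) ≤ (c + t0) ^ 2 := by
      have : (1 : ℝ) ≤ c + t0 := by linarith [ht0I.2.1]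
      nlinarith
    have g3 : (4 : ℝ) ^ (i / 2) ≤ D w u0 ^ 2 := by
      have h2 := D_ge hwp hu0I.2.1.le hu0I.2.2.le
      rw [hlen] at h2
      have h3 : (4 : ℝ) ^ (i / 2) = 2 ^ (i / 2) * 2 ^ (i / 2) := by
        rw [← mul_pow]; norm_num
      rw [h3, pow_two]
      exact mul_le_mul h2 h2 (by positivity) hDw0.le
    have g4 : (1 + e0 - t0) * (1 + e1 - t0) ≤ 4 := by
      have a1 : 1 + e0 - t0 ≤ 2 := by linarith [ht0I.2.1, he0m.2]
      have a2 : 1 + e1 - t0 ≤ 2 := by linarith [ht0I.2.1, he1m.2]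
      nlinarith
    exact alg3 hq (by positivity) (mul_pos hX1 hX2) g4 (by positivity)
      (by positivity) g1 g2 g3 hbig
  -- the integer M
  obtain ⟨M, hM1, hM2, hM3⟩ : ∃ M : ℕ, 1 ≤ M ∧ min (1 / v1) (1 / v2) ≤ M ∧
      (M : ℝ) + 1 ≤ max (1 / v1) (1 / v2) := by
    have hs1 : 1 ≤ 1 / v1 := by rw [le_div_iff₀ hv1p]; linarith [hv1.2]
    have hs2 : 1 ≤ 1 / v2 := by rw [le_div_iff₀ hv2p]; linarith [hv2.2]
    have hmin : 1 ≤ min (1 / v1) (1 / v2) := le_min hs1 hs2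
    refine ⟨⌈min (1 / v1) (1 / v2)⌉₊, ?_, Nat.le_ceil _, ?_⟩
    · rw [Nat.one_le_ceil_iff]; linarith
    · have h2 := Nat.ceil_lt_add_one (show (0 : ℝ) ≤ min (1 / v1) (1 / v2) by linarith)
      have h3 : |1 / v1 - 1 / v2| = max (1 / v1) (1 / v2) - min (1 / v1) (1 / v2) :=
        (max_sub_min_eq_abs' _ _).symm
      linarith
  refine ⟨W, M, hWp, hM1, rfl, ?_⟩
  intro ρ h0 h1
  have hMR : (1 : ℝ) ≤ M := by exact_mod_cast hM1
  set v := 1 / ((M : ℝ) + ρ) with hv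
  have hvp : 0 < v := by rw [hv]; positivity
  have hv1' : v ≤ 1 := by rw [hv, div_le_one (by linarith)]; linarith
  have hx : F (P ++ [M]) ρ = F P v := by rw [F_append]; rfl
  -- position of v
  have hpos : min v1 v2 ≤ v ∧ v ≤ max v1 v2 := by
    rcases le_total v1 v2 with h | h
    · have h2 : 1 / v2 ≤ 1 / v1 := one_div_le_one_div_of_le hv1p h
      rw [min_eq_right h2] at hM2
      rw [max_eq_left h2] at hM3
      rw [min_eq_left h, max_eq_right h]
      constructor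
      · rw [hv, le_div_iff₀ (by linarith)]
        rw [le_div_iff₀ hv1p] at hM3
        nlinarith
      · rw [hv, div_le_iff₀ (by linarith)]
        rw [div_le_iff₀ hv2p] at hM2
        nlinarith
    · have h2 : 1 / v1 ≤ 1 / v2 := one_div_le_one_div_of_le hv2p h
      rw [min_eq_left h2] at hM2
      rw [max_eq_right h2] at hM3
      rw [min_eq_right h, max_eq_left h]
      constructor
      · rw [hv, le_div_iff₀ (by linarith)]
        rw [le_div_iff₀ hv2p] at hM3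
        nlinarith
      · rw [hv, div_le_iff₀ (by linarith)]
        rw [div_le_iff₀ hv1p] at hM2
        nlinarith
  have hgm : ∀ a b, 0 ≤ a → a ≤ 1 → 0 ≤ b → b ≤ 1 → a ≤ b → g a ≤ g b := by
    intro a b ha ha' hb hb' hab
    have h2 := hgd b a hb hb' ha ha'
    have h3 : 0 ≤ q * (b - a) / (D P b * D P a) := by
      apply div_nonneg (mul_nonneg hq.le (by linarith))
      exact (mul_pos (D_pos hP hb hb') (D_pos hP ha ha')).le
    linarith
  have hgv : min b1 b2 ≤ g v ∧ g v ≤ max b1 b2 := by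
    rcases le_total v1 v2 with h | h
    · rw [min_eq_left h, max_eq_right h] at hpos
      have h2 := hgm v1 v hv1.1 hv1.2 hvp.le hv1' hpos.1
      have h3 := hgm v v2 hvp.le hv1' hv2.1 hv2.2 hpos.2
      rw [hgv1] at h2
      rw [hgv2] at h3
      exact ⟨(min_le_left _ _).trans h2, h3.trans (le_max_right _ _)⟩
    · rw [min_eq_right h, max_eq_left h] at hpos
      have h2 := hgm v2 v hv2.1 hv2.2 hvp.le hv1' hpos.1
      have h3 := hgm v v1 hvp.le hv1' hv1.1 hv1.2 hpos.2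
      rw [hgv2] at h2
      rw [hgv1] at h3
      exact ⟨(min_le_right _ _).trans h2, h3.trans (le_max_left _ _)⟩
  -- y - c0 lies between the endpoints
  have hYin : q * F P v + q - c0 ∈ uIcc (F W 0) (F W 1) := by
    have e1 : g v = σ * (q * F P v + q - c0 - z) := by rw [hg]; ring
    rw [e1, ← hY1, ← hY2] at hgv
    rw [mem_uIcc]
    have hσ2 : σ = 1 ∨ σ = -1 := by
      rcases neg_one_pow_eq_or ℝ P.length with h | h
      · exact Or.inl h
      · exact Or.inr h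
    rcases hσ2 with h | h
    · rw [h] at hgv
      simp only [one_mul] at hgv
      rcases le_total (F W 0 - z) (F W 1 - z) with h2 | h2
      · rw [min_eq_left h2, max_eq_right h2] at hgv
        left; constructor <;> linarith
      · rw [min_eq_right h2, max_eq_left h2] at hgv
        right; constructor <;> linarith
    · rw [h] at hgv
      rcases le_total (-1 * (F W 0 - z)) (-1 * (F W 1 - z)) with h2 | h2
      · rw [min_eq_left h2, max_eq_right h2] at hgv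
        right; constructor <;> linarith
      · rw [min_eq_right h2, max_eq_left h2] at hgv
        left; constructor <;> linarith
  have hcW : ContinuousOn (F W) (uIcc 0 1) := by
    rw [uIcc_of_le zero_le_one]; exact F_cont hWp
  obtain ⟨τ, hτ, hτe⟩ := intermediate_value_uIcc hcW hYin
  rw [uIcc_of_le zero_le_one] at hτ
  exact ⟨τ, hτ.1, hτ.2, by rw [hx, hτe]; ring⟩

end

end Pool.Agent.Q274.CF
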