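import Pool.Agent.Q274.CF.Jump
import Pool.Agent.Q274.CF.Block

/-!
A number `x` with equidistributed Gauss orbit such that the Gauss orbit of `q x + q` has
arbitrarily late long stretches in `[1/2, 1)`.
-/

namespace Pool.Agent.Q274.CF

open Set Filter Topology

noncomputable section

theorem pow_even (n : ℕ) : (-1 : ℝ) ^ (2 * n) = 1 := by
  rw [pow_mul]; norm_num

/-- choice of the precision -/
theorem exists_prec {A B : ℝ} (hA : 0 < A) (hB : 0 < B) (k l : ℕ) :
    ∃ i : ℕ, k ≤ i ∧ (-1 : ℝ) ^ l = - (-1) ^ i ∧ (1 / 4 : ℝ) ^ (i / 2) ≤ A ∧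
      2 ≤ B * (1 / 4) ^ (i / 4 + 1) * 4 ^ (i / 2) := by
  obtain ⟨n1, hn1⟩ := exists_pow_lt_of_lt_one hA (show (1 / 4 : ℝ) < 1 by norm_num)
  obtain ⟨n2, hn2⟩ := pow_unbounded_of_one_lt (8 / B) (show (1 : ℝ) < 4 by norm_num)
  set n := n1 + n2 + k with hn
  -- i = 4 n + (l + 1) mod 2, shifted
  refine ⟨4 * n + (l + 1) % 2, by omega, ?_, ?_, ?_⟩
  · have e : 4 * n + (l + 1) % 2 = 2 * (2 * n) + (l + 1) % 2 := by ring
    rw [e, pow_add, pow_even, one_mul]
    have h2 := Nat.div_add_mod l 2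
    rcases Nat.mod_two_eq_zero_or_one l with h | h
    · have h3 : (l + 1) % 2 = 1 := by omega
      rw [h3]
      rw [h, add_zero] at h2
      rw [← h2, pow_even]; norm_num
    · have h3 : (l + 1) % 2 = 0 := by omega
      rw [h3]
      rw [h] at h2
      rw [← h2, pow_add, pow_even]; norm_num
  · refine le_trans ?_ hn1.le
    apply pow_le_pow_of_le_one (by norm_num) (by norm_num)
    omega
  · have e1 : (4 * n + (l + 1) % 2) / 4 = n := by omega
    have e2 : (4 * n + (l + 1) % 2) / 2 = 2 * n := by omega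
    rw [e1, e2]
    have e3 : B * (1 / 4 : ℝ) ^ (n + 1) * 4 ^ (2 * n) = B / 4 * 4 ^ n := by
      clear_value n
      rw [one_div_pow, pow_succ, two_mul, pow_add]
      field_simp
    rw [e3]
    have h3 : (8 : ℝ) / B ≤ 4 ^ n :=
      hn2.le.trans (pow_le_pow_right₀ (by norm_num) (by omega))
    rw [div_le_iff₀ hB] at h3
    linarith

theorem F_nonneg_rat (w : List ℕ) (q : ℚ) (hq : 0 ≤ q) : ∃ r : ℚ, 0 ≤ r ∧ F w q = r := by
  induction w with
  | nil => exact ⟨q, hq, rfl⟩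
  | cons a w ih =>
    obtain ⟨r, hr0, hr⟩ := ih
    refine ⟨1 / (a + r), by positivity, ?_⟩
    show 1 / ((a : ℝ) + F w q) = _
    rw [hr]; push_cast; rfl

/-- the orbit statement produced by one huge partial quotient -/
def Long (q : ℝ) (k : ℕ) (x : ℝ) : Prop :=
  Irrational (q * x + q) → ∃ i ≥ k, ∀ n, i + 1 ≤ n → n < i + 1 + (i / 4 + 1) →
    1 / 2 ≤ T^[n] (Int.fract (q * x + q))

theorem jump {q : ℝ} (hq : 0 < q) (hqi : Irrational q) {P : List ℕ} (hP : Pos P) (k : ℕ) :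
    ∃ M : ℕ, 1 ≤ M ∧ ∀ ρ : ℝ, 0 < ρ → ρ < 1 → Long q k (F (P ++ [M]) ρ) := by
  obtain ⟨r, hr0, hr⟩ := F_nonneg_rat P 0 le_rfl
  push_cast at hr
  set θ := q * F P 0 + q with hθ
  have hθi : Irrational θ := by
    have e : θ = q * ((r + 1 : ℚ) : ℝ) := by
      rw [hθ, hr]; push_cast; ring
    rw [e]
    apply hqi.mul_ratCast
    positivity
  set z := Int.fract θ with hz
  have hzI : Irr z := by
    have h1 : Irrational z := by
      rw [hz, ← Int.self_sub_floor]
      exact hθi.sub_intCast _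
    refine ⟨h1, ?_, Int.fract_lt_one _⟩
    rcases lt_or_eq_of_le (Int.fract_nonneg θ) with h | h
    · exact h
    · exfalso
      rw [hz, ← h] at h1
      exact h1 ⟨0, by simp⟩
  have hθz : q * F P 0 + q = ((⌊θ⌋ : ℤ) : ℝ) + z := (Int.floor_add_fract θ).symm
  have hD0 := D_pos hP (le_refl (0 : ℝ)) zero_le_one
  have hD1 := D_pos hP (zero_le_one (α := ℝ)) le_rfl
  obtain ⟨i, hik, hpar, hsmall, hbig⟩ := exists_prec
    (show 0 < q / (D P 1 * D P 0) by positivity)
    (show 0 < q / (4 * D P 0 ^ 2) by positivity) k P.length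
  obtain ⟨W, M, hW, hM, hWe, h⟩ := jump_aux hq hP hzI hθz i hpar hsmall hbig
  refine ⟨M, hM, ?_⟩
  intro ρ h0 h1 hirr
  obtain ⟨τ, t0, t1, hτ⟩ := h ρ h0 h1
  have hirr2 : Irrational (F W τ) := by
    rw [hτ] at hirr
    have h2 := hirr.sub_intCast ⌊θ⌋
    have e : ((⌊θ⌋ : ℤ) : ℝ) + F W τ - ((⌊θ⌋ : ℤ) : ℝ) = F W τ := by ring
    rw [e] at h2
    exact h2
  have t0' : 0 < τ := by
    rcases lt_or_eq_of_le t0 with h2 | h2
    · exact h2
    · exfalso
      obtain ⟨s, hs⟩ := F_rat W 0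
      rw [← h2] at hirr2
      push_cast at hs
      rw [hs] at hirr2
      exact hirr2 ⟨s, rfl⟩
  have t1' : τ < 1 := by
    rcases lt_or_eq_of_le t1 with h2 | h2
    · exact h2
    · exfalso
      obtain ⟨s, hs⟩ := F_rat W 1
      rw [h2] at hirr2
      push_cast at hs
      rw [hs] at hirr2
      exact hirr2 ⟨s, rfl⟩
  obtain ⟨f0, f1⟩ := F_open hW t0' t1'
  have hfr : Int.fract (q * F (P ++ [M]) ρ + q) = F W τ := by
    rw [hτ, Int.fract_intCast_add]
    exact Int.fract_eq_self.mpr ⟨f0.le, f1⟩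
  refine ⟨i, hik, ?_⟩
  intro n hn1 hn2
  rw [hfr]
  have hlen : W.length = i + 1 + (i / 4 + 1) := by
    rw [hWe, List.length_append, wd_length, List.length_cons, List.length_replicate]
    omega
  rw [T_iter hW t0' t1' n (by omega)]
  obtain ⟨j, rfl⟩ : ∃ j, n = (wd z i).length + (j + 1) := by
    rw [wd_length]; exact ⟨n - (i + 1), by omega⟩
  rw [wd_length] at hn1 hn2
  have hd : W.drop ((wd z i).length + (j + 1)) = List.replicate ((i / 4 + 1) - j) 1 := by
    rw [hWe, List.drop_append, List.drop_eq_nil_of_le (by omega), List.nil_append]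
    have : (wd z i).length + (j + 1) - (wd z i).length = j + 1 := by omega
    rw [this, List.drop_succ_cons, List.drop_replicate]
  rw [hd]
  obtain ⟨m, hm⟩ : ∃ m, (i / 4 + 1) - j = m + 1 := ⟨(i / 4 + 1) - j - 1, by omega⟩
  rw [hm, List.replicate_succ]
  show 1 / 2 ≤ 1 / (((1 : ℕ) : ℝ) + F (List.replicate m 1) τ)
  have h3 := F_mem (Pos.replicate (le_refl 1) m) t0 t1
  push_cast
  apply one_div_le_one_div_of_le (by linarith [h3.1])
  linarith [h3.2]

/-- repetition -/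
def rep (W : List ℕ) : ℕ → List ℕ
  | 0 => []
  | j + 1 => rep W j ++ W

theorem rep_len (W : List ℕ) (j : ℕ) : (rep W j).length = j * W.length := by
  induction j with
  | zero => simp [rep]
  | succ j ih => rw [rep, List.length_append, ih]; ring

theorem rep_pos {W : List ℕ} (hW : Pos W) (j : ℕ) : Pos (rep W j) := by
  induction j with
  | zero => exact Pos.nil
  | succ j ih => exact ih.append hW

theorem rep_add (W : List ℕ) (j i : ℕ) : rep W (j + i) = rep W j ++ rep W i := by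
  induction i with
  | zero => simp [rep]
  | succ i ih => rw [← add_assoc, rep, rep, ih, List.append_assoc]

theorem rep_Dc {W : List ℕ} (hW : Pos W) {e : ℝ} (h : Dc W e) (j : ℕ) : Dc (rep W j) (j * e) := by
  induction j with
  | zero =>
    intro τ _ _ t _ _
    simp [rep, cnt]
  | succ j ih =>
    have h2 := Dc.append (rep_pos hW j) hW ih h
    have e1 : ((j + 1 : ℕ) : ℝ) * e = j * e + e := by push_cast; ring
    rw [e1]
    exact h2

/-- the words -/
def PP (W : ℕ → List ℕ) (M : List ℕ → ℕ → ℕ) : ℕ → List ℕ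
  | 0 => []
  | k + 1 => PP W M k ++ (M (PP W M k) k :: rep (W k)
      ((k + 1) * ((PP W M k).length + 1 + (W (k + 1)).length + 1)))

/-- number of repetitions -/
def rr (W : ℕ → List ℕ) (M : List ℕ → ℕ → ℕ) (k : ℕ) : ℕ :=
  (k + 1) * ((PP W M k).length + 1 + (W (k + 1)).length + 1)

theorem PP_succ (W : ℕ → List ℕ) (M : List ℕ → ℕ → ℕ) (k : ℕ) :
    PP W M (k + 1) = PP W M k ++ (M (PP W M k) k :: rep (W k) (rr W M k)) := rfl

/-- everything about the construction -/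
structure Dat (W : ℕ → List ℕ) (M : List ℕ → ℕ → ℕ) : Prop where
  Wp : ∀ k, Pos (W k)
  Wne : ∀ k, W k ≠ []
  Wd : ∀ k, Dc (W k) (1 / (k + 1) * (W k).length)
  Mp : ∀ P k, Pos P → 1 ≤ M P k

theorem Dat.pos {W : ℕ → List ℕ} {M : List ℕ → ℕ → ℕ} (h : Dat W M) (k : ℕ) :
    Pos (PP W M k) := by
  induction k with
  | zero => exact Pos.nil
  | succ k ih =>
    rw [PP_succ]
    exact ih.append (Pos.cons (h.Mp _ _ ih) (rep_pos (h.Wp k) _))

theorem Dat.Wlen {W : ℕ → List ℕ} {M : List ℕ → ℕ → ℕ} (h : Dat W M) (k : ℕ) :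
    1 ≤ (W k).length := List.length_pos_iff.mpr (h.Wne k)

theorem rr_pos (W : ℕ → List ℕ) (M : List ℕ → ℕ → ℕ) (k : ℕ) : 1 ≤ rr W M k := by
  rw [rr]; nlinarith

theorem PP_len (W : ℕ → List ℕ) (M : List ℕ → ℕ → ℕ) (k : ℕ) :
    (PP W M (k + 1)).length = (PP W M k).length + 1 + rr W M k * (W k).length := by
  rw [PP_succ, List.length_append, List.length_cons, rep_len]; ring

theorem le_PP_len (W : ℕ → List ℕ) (M : List ℕ → ℕ → ℕ) (k : ℕ) : k ≤ (PP W M k).length := by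
  induction k with
  | zero => exact Nat.zero_le _
  | succ k ih => rw [PP_len]; omega

/-- partial stage -/
def St (W : ℕ → List ℕ) (M : List ℕ → ℕ → ℕ) (k j : ℕ) : List ℕ :=
  PP W M k ++ (M (PP W M k) k :: rep (W k) j)

theorem Dat.St_pos {W : ℕ → List ℕ} {M : List ℕ → ℕ → ℕ} (h : Dat W M) (k j : ℕ) :
    Pos (St W M k j) := (h.pos k).append (Pos.cons (h.Mp _ _ (h.pos k)) (rep_pos (h.Wp k) _))

theorem St_len (W : ℕ → List ℕ) (M : List ℕ → ℕ → ℕ) (k j : ℕ) :
    (St W M k j).length = (PP W M k).length + 1 + j * (W k).length := by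
  rw [St, List.length_append, List.length_cons, rep_len]; ring

theorem Dat.St_Dc {W : ℕ → List ℕ} {M : List ℕ → ℕ → ℕ} (h : Dat W M) {k : ℕ} {d : ℝ}
    (hd : Dc (PP W M k) d) (j : ℕ) :
    Dc (St W M k j) (d + (1 + j * (1 / (k + 1) * (W k).length))) := by
  have h1 : Dc [M (PP W M k) k] 1 := by
    have := Dc.triv [M (PP W M k) k]
    simpa using this
  have h2 := Dc.append (Pos.cons (h.Mp _ _ (h.pos k)) Pos.nil) (rep_pos (h.Wp k) j) h1
    (rep_Dc (h.Wp k) (h.Wd k) j)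
  exact Dc.append (h.pos k) (Pos.cons (h.Mp _ _ (h.pos k)) (rep_pos (h.Wp k) _)) hd h2

/-- discrepancy of the words -/
theorem Dat.Pd {W : ℕ → List ℕ} {M : List ℕ → ℕ → ℕ} (h : Dat W M) (k : ℕ) :
    Dc (PP W M (k + 1)) (2 / (k + 1) * (PP W M (k + 1)).length) := by
  have h1 := h.St_Dc (Dc.triv (PP W M k)) (rr W M k)
  refine Dc.mono h1 ?_
  have hk : (0 : ℝ) < k + 1 := by positivity
  have hW : (1 : ℝ) ≤ (W k).length := by exact_mod_cast h.Wlen k
  have hr : ((k : ℝ) + 1) * ((PP W M k).length + 1) ≤ rr W M k := by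
    have : (k + 1) * ((PP W M k).length + 1) ≤ rr W M k := by
      rw [rr]; exact Nat.mul_le_mul_left _ (by omega)
    exact_mod_cast this
  have hl : ((PP W M (k + 1)).length : ℝ) = (PP W M k).length + 1 + rr W M k * (W k).length := by
    rw [PP_len]; push_cast; ring
  rw [hl]
  have hp0 : (0 : ℝ) ≤ ((PP W M k).length : ℝ) := Nat.cast_nonneg _
  have hr0 : (0 : ℝ) ≤ (rr W M k : ℝ) := Nat.cast_nonneg _
  generalize ((PP W M k).length : ℝ) = p at *
  generalize (rr W M k : ℝ) = r at *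
  generalize ((W k).length : ℝ) = w at *
  have e1 : p + (1 + r * (1 / ((k : ℝ) + 1) * w)) = (((k : ℝ) + 1) * (p + 1) + r * w) / (k + 1) := by
    field_simp
    ring
  have e2 : 2 / ((k : ℝ) + 1) * (p + 1 + r * w) = (2 * (p + 1 + r * w)) / (k + 1) := by ring
  rw [e1, e2]
  apply div_le_div_of_nonneg_right _ hk.le
  nlinarith

theorem Dat.next {W : ℕ → List ℕ} {M : List ℕ → ℕ → ℕ} (h : Dat W M) (k : ℕ) :
    ((k : ℝ) + 1) * ((W (k + 1)).length + 1) ≤ (PP W M (k + 1)).length := by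
  have hW := h.Wlen k
  have h1 : (k + 1) * ((W (k + 1)).length + 1) ≤ rr W M k := by
    rw [rr]; exact Nat.mul_le_mul_left _ (by omega)
  have h2 : (k + 1) * ((W (k + 1)).length + 1) ≤ (PP W M (k + 1)).length := by
    rw [PP_len]
    have : rr W M k * 1 ≤ rr W M k * (W k).length := Nat.mul_le_mul_left _ hW
    omega
  exact_mod_cast h2

/-- the point -/
theorem Dat.point {W : ℕ → List ℕ} {M : List ℕ → ℕ → ℕ} (h : Dat W M) :
    ∃ (x : ℝ) (t : ℕ → ℝ), (∀ k, 0 < t k ∧ t k < 1) ∧ ∀ k, F (PP W M k) (t k) = x := by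
  have hK : (⋂ n, F (PP W M n) '' Set.Icc 0 1).Nonempty := by
    apply IsCompact.nonempty_iInter_of_sequence_nonempty_isCompact_isClosed
    · intro n
      rintro _ ⟨u, hu, rfl⟩
      rw [PP_succ, F_append]
      exact ⟨_, F_mem (Pos.cons (h.Mp _ _ (h.pos n)) (rep_pos (h.Wp n) _)) hu.1 hu.2, rfl⟩
    · intro n
      exact ⟨_, ⟨0, by simp, rfl⟩⟩
    · exact isCompact_Icc.image_of_continuousOn (F_cont (h.pos 0))
    · intro n
      exact (isCompact_Icc.image_of_continuousOn (F_cont (h.pos n))).isClosed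
  obtain ⟨x, hx⟩ := hK
  rw [Set.mem_iInter] at hx
  choose t ht htx using hx
  refine ⟨x, t, ?_, htx⟩
  intro k
  have hE := Pos.cons (h.Mp (PP W M k) k (h.pos k)) (rep_pos (h.Wp k) (rr W M k))
  have h1 : t k = F (M (PP W M k) k :: rep (W k) (rr W M k)) (t (k + 1)) := by
    have h2 := htx (k + 1)
    rw [PP_succ, F_append, ← htx k] at h2
    have h3 := F_mem hE (ht (k + 1)).1 (ht (k + 1)).2
    exact (F_inj (h.pos k) h3.1 h3.2 (ht k).1 (ht k).2 h2).symm
  obtain ⟨b, R, hR⟩ : ∃ b R, rep (W k) (rr W M k) = b :: R := by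
    have hl : 1 ≤ (rep (W k) (rr W M k)).length := by
      rw [rep_len]
      exact Nat.mul_le_mul (rr_pos W M k) (h.Wlen k)
    match hh : rep (W k) (rr W M k) with
    | [] => rw [hh] at hl; simp at hl
    | b :: R => exact ⟨b, R, rfl⟩
  rw [hR] at h1 hE
  have h4 := F_mem hE.tail.tail (ht (k + 1)).1 (ht (k + 1)).2
  have hM : (1 : ℝ) ≤ M (PP W M k) k := by exact_mod_cast hE.head
  have hb : (1 : ℝ) ≤ b := by exact_mod_cast hE.tail.head
  have h5 : 0 < 1 / ((b : ℝ) + F R (t (k + 1))) := by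
    have := h4.1
    positivity
  have h6 : t k = 1 / ((M (PP W M k) k : ℝ) + 1 / ((b : ℝ) + F R (t (k + 1)))) := h1
  rw [h6]
  constructor
  · positivity
  · rw [div_lt_one (by linarith)]
    linarith

theorem Dat.irr {W : ℕ → List ℕ} {M : List ℕ → ℕ → ℕ} (h : Dat W M) {x : ℝ} {t : ℕ → ℝ}
    (ht : ∀ k, 0 < t k ∧ t k < 1) (hx : ∀ k, F (PP W M k) (t k) = x) : Irrational x := by
  apply irr_of_orbit
  intro n
  rw [← hx n, T_iter (h.pos n) (ht n).1 (ht n).2 n (le_PP_len W M n)]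
  exact (F_open ((h.pos n).drop n) (ht n).1 (ht n).2).1

/-- discrepancy of all initial segments -/
theorem Dat.pfx {W : ℕ → List ℕ} {M : List ℕ → ℕ → ℕ} (h : Dat W M) {x : ℝ} {t : ℕ → ℝ}
    (ht : ∀ k, 0 < t k ∧ t k < 1) (hx : ∀ k, F (PP W M k) (t k) = x) (k N : ℕ)
    (h1 : (PP W M (k + 1)).length ≤ N) (h2 : N < (PP W M (k + 2)).length) {s : ℝ} (s0 : 0 ≤ s)
    (s1 : s ≤ 1) : |(cnt N s x : ℝ) - N * G s| ≤ 4 / (k + 1) * N := by
  have hk : (0 : ℝ) < k + 1 := by positivity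
  have hPd := h.Pd k
  have hnext := h.next k
  have hN : ((PP W M (k + 1)).length : ℝ) ≤ N := by exact_mod_cast h1
  have hwl : ((W (k + 1)).length : ℝ) + 1 ≤ N / (k + 1) := by
    rw [le_div_iff₀ hk]; linarith
  have hG0 := G_nonneg s0
  have hG1 := G_le_one s0 s1
  -- decompose
  rcases Nat.eq_or_lt_of_le h1 with he | hlt
  · -- N = length
    rw [← he]
    have h3 := hPd (t (k + 1)) (ht (k + 1)).1 (ht (k + 1)).2 s s0 s1
    rw [hx (k + 1)] at h3
    refine h3.trans ?_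
    apply mul_le_mul_of_nonneg_right _ (Nat.cast_nonneg _)
    apply div_le_div_of_nonneg_right _ hk.le
    norm_num
  · set V := W (k + 1) with hV
    have hVl : 1 ≤ V.length := h.Wlen (k + 1)
    set u := N - (PP W M (k + 1)).length - 1 with hu
    set j := u / V.length with hj
    set l := u % V.length with hl
    have hul : V.length * j + l = u := Nat.div_add_mod _ _
    have hll : l < V.length := Nat.mod_lt _ hVl
    have hlen2 : (PP W M (k + 2)).length =
        (PP W M (k + 1)).length + 1 + rr W M (k + 1) * V.length := PP_len W M (k + 1)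
    have hjr : j < rr W M (k + 1) := by
      have h3 : V.length * j < rr W M (k + 1) * V.length := by omega
      by_contra hc
      push Not at hc
      have := Nat.mul_le_mul_left V.length hc
      rw [mul_comm V.length (rr W M (k + 1))] at this
      omega
    have hNd : N = (St W M (k + 1) j).length + l := by
      have h3 : j * V.length = V.length * j := mul_comm _ _
      rw [St_len, ← hV, h3]; omega
    obtain ⟨i, hi⟩ : ∃ i, rr W M (k + 1) = j + i := ⟨rr W M (k + 1) - j, by omega⟩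
    have hxe : x = F (St W M (k + 1) j) (F (rep V i) (t (k + 2))) := by
      rw [← hx (k + 2), PP_succ, hi, rep_add, ← F_append, St, List.append_assoc]
      rfl
    obtain ⟨r0, r1⟩ := F_open (rep_pos (h.Wp (k + 1)) i) (ht (k + 2)).1 (ht (k + 2)).2
    have h3 := h.St_Dc hPd j _ r0 r1 s s0 s1
    rw [← hxe] at h3
    have h4 : cnt N s x = cnt (St W M (k + 1) j).length s x +
        cnt l s (T^[(St W M (k + 1) j).length] x) := by
      conv_lhs => rw [hNd]
      exact cnt_add _ _ _ _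
    have h5 : (cnt l s (T^[(St W M (k + 1) j).length] x) : ℝ) ≤ l := by
      exact_mod_cast cnt_le _ _ _
    have h6 : (0 : ℝ) ≤ cnt l s (T^[(St W M (k + 1) j).length] x) := Nat.cast_nonneg _
    have h7 : (N : ℝ) = (St W M (k + 1) j).length + l := by exact_mod_cast hNd
    have h8 : (cnt N s x : ℝ) = cnt (St W M (k + 1) j).length s x +
        cnt l s (T^[(St W M (k + 1) j).length] x) := by exact_mod_cast h4
    have h9 : (l : ℝ) ≤ V.length := by exact_mod_cast hll.le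
    have h10 : (j : ℝ) * V.length ≤ N := by
      have : j * V.length ≤ N := by rw [mul_comm]; omega
      exact_mod_cast this
    -- error terms
    have e1 : 2 / ((k : ℝ) + 1) * (PP W M (k + 1)).length ≤ 2 * (N / (k + 1)) := by
      rw [div_mul_eq_mul_div, mul_div_assoc]
      apply mul_le_mul_of_nonneg_left _ (by norm_num)
      exact div_le_div_of_nonneg_right hN hk.le
    have e2 : (j : ℝ) * (1 / (((k + 1 : ℕ) : ℝ) + 1) * V.length) ≤ N / (k + 1) := by
      have : (j : ℝ) * (1 / (((k + 1 : ℕ) : ℝ) + 1) * V.length) =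
        (j * V.length) / (((k + 1 : ℕ) : ℝ) + 1) := by ring
      rw [this]
      apply div_le_div₀ (by positivity) h10 hk
      push_cast
      linarith
    have e3 : 4 / ((k : ℝ) + 1) * N = 4 * (N / (k + 1)) := by ring
    rw [e3]
    rw [abs_le] at h3 ⊢
    have h11 : 0 ≤ (l : ℝ) * G s := mul_nonneg (Nat.cast_nonneg _) hG0
    have h12 : (l : ℝ) * G s ≤ l := by
      have := mul_le_mul_of_nonneg_left hG1 (Nat.cast_nonneg (α := ℝ) l)
      linarith
    have h13 : (N : ℝ) * G s = (St W M (k + 1) j).length * G s + l * G s := by rw [h7]; ring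
    rw [h8, h13]
    constructor
    · linarith [h3.1]
    · linarith [h3.2]

theorem Dat.equi {W : ℕ → List ℕ} {M : List ℕ → ℕ → ℕ} (h : Dat W M) {x : ℝ} {t : ℕ → ℝ}
    (ht : ∀ k, 0 < t k ∧ t k < 1) (hx : ∀ k, F (PP W M k) (t k) = x) {s : ℝ} (s0 : 0 ≤ s)
    (s1 : s ≤ 1) : Tendsto (fun N : ℕ => (cnt N s x : ℝ) / N) atTop (𝓝 (G s)) := by
  rw [Metric.tendsto_atTop]
  intro ε hε
  obtain ⟨k0, hk0⟩ : ∃ k0 : ℕ, 4 / ε < k0 := exists_nat_gt _
  refine ⟨(PP W M (k0 + 1)).length, ?_⟩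
  intro N hN
  -- find k
  obtain ⟨k, hk, hk1, hk2⟩ : ∃ k ≥ k0, (PP W M (k + 1)).length ≤ N ∧
      N < (PP W M (k + 2)).length := by
    have hex : ∃ m, N < (PP W M (m + 1)).length :=
      ⟨N, lt_of_lt_of_le (Nat.lt_succ_self N) (le_PP_len W M (N + 1))⟩
    classical
    set m := Nat.find hex with hm
    have hm1 : N < (PP W M (m + 1)).length := Nat.find_spec hex
    have hm2 : ∀ i < m, (PP W M (i + 1)).length ≤ N := fun i hi => not_lt.mp (Nat.find_min hex hi)
    have hmk : k0 < m := by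
      by_contra hc
      push Not at hc
      have hmono : ∀ a b, a ≤ b → (PP W M a).length ≤ (PP W M b).length := by
        intro a b hab
        induction b, hab using Nat.le_induction with
        | base => exact le_rfl
        | succ b _ ih => rw [PP_len]; omega
      have := hmono (m + 1) (k0 + 1) (by omega)
      omega
    obtain ⟨k, hk⟩ : ∃ k, m = k + 1 := ⟨m - 1, by omega⟩
    rw [hk] at hm1
    exact ⟨k, by omega, hm2 k (by omega), hm1⟩
  have h1 := h.pfx ht hx k N hk1 hk2 s0 s1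
  have hN1 : 1 ≤ N := by
    have := le_PP_len W M (k + 1)
    omega
  have hN0 : (0 : ℝ) < N := by exact_mod_cast hN1
  rw [Real.dist_eq]
  have e : (cnt N s x : ℝ) / N - G s = ((cnt N s x : ℝ) - N * G s) / N := by field_simp
  rw [e, abs_div, abs_of_pos hN0, div_lt_iff₀ hN0]
  refine h1.trans_lt ?_
  apply mul_lt_mul_of_pos_right _ hN0
  have hk' : (k0 : ℝ) ≤ k := by exact_mod_cast hk
  have hk0' : 0 < (k0 : ℝ) := lt_trans (by positivity) hk0
  rw [div_lt_iff₀ (by linarith)]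
  rw [div_lt_iff₀ hε] at hk0
  nlinarith

/-- **the construction** -/
theorem exists_x {q : ℝ} (hq : 0 < q) (hqi : Irrational q) :
    ∃ x : ℝ, 0 < x ∧ x < 1 ∧ Irrational x ∧
      (∀ s : ℝ, 0 ≤ s → s ≤ 1 → Tendsto (fun N : ℕ => (cnt N s x : ℝ) / N) atTop (𝓝 (G s))) ∧
      ∀ k, Long q k x := by
  have hb : ∀ k : ℕ, ∃ W : List ℕ, Pos W ∧ W ≠ [] ∧ Dc W (1 / ((k : ℝ) + 1) * W.length) :=
    fun k => exists_block _ (by positivity)
  choose W hW1 hW2 hW3 using hb
  have hM : ∀ (P : List ℕ) (k : ℕ), ∃ M : ℕ, 1 ≤ M ∧ (Pos P →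
      ∀ ρ : ℝ, 0 < ρ → ρ < 1 → Long q k (F (P ++ [M]) ρ)) := by
    intro P k
    by_cases hP : Pos P
    · obtain ⟨M, h1, h2⟩ := jump hq hqi hP k
      exact ⟨M, h1, fun _ => h2⟩
    · exact ⟨1, le_rfl, fun h => absurd h hP⟩
  choose M hM1 hM2 using hM
  have h : Dat W M := ⟨hW1, hW2, hW3, fun P k _ => hM1 P k⟩
  obtain ⟨x, t, ht, hx⟩ := h.point
  have hx0 : x = t 0 := (hx 0).symm
  refine ⟨x, by rw [hx0]; exact (ht 0).1, by rw [hx0]; exact (ht 0).2, h.irr ht hx,
    fun s s0 s1 => h.equi ht hx s0 s1, ?_⟩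
  intro k
  have e : x = F (PP W M k ++ [M (PP W M k) k]) (F (rep (W k) (rr W M k)) (t (k + 1))) := by
    rw [← hx (k + 1), PP_succ, ← F_append, List.append_assoc]
    rfl
  obtain ⟨r0, r1⟩ := F_open (rep_pos (h.Wp k) (rr W M k)) (ht (k + 1)).1 (ht (k + 1)).2
  rw [e]
  exact hM2 _ k (h.pos k) _ r0 r1

/-- late long stretches contradict equidistribution -/
theorem not_equi {y : ℝ} (h : ∀ k : ℕ, ∃ i ≥ k, ∀ n, i + 1 ≤ n → n < i + 1 + (i / 4 + 1) →
    1 / 2 ≤ T^[n] y) :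
    ¬ Tendsto (fun N : ℕ => (cnt N (1 / 2) y : ℝ) / N) atTop (𝓝 (G (1 / 2))) := by
  intro hT
  have hg : 0 < G (1 / 2) := by
    rw [G]
    exact div_pos (Real.log_pos (by norm_num)) log2_pos
  set g := G (1 / 2) with hgd
  rw [Metric.tendsto_atTop] at hT
  obtain ⟨N0, hN0⟩ := hT (g / 20) (by positivity)
  obtain ⟨i, hi, hlong⟩ := h N0
  have h1 := hN0 (i + 1) (by omega)
  have h2 := hN0 (i + 1 + (i / 4 + 1)) (by omega)
  rw [Real.dist_eq, abs_lt] at h1 h2
  have h3 : cnt (i + 1 + (i / 4 + 1)) (1 / 2) y = cnt (i + 1) (1 / 2) y := by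
    rw [cnt_add]
    have : cnt (i / 4 + 1) (1 / 2) (T^[i + 1] y) = 0 := by
      rw [cnt, Finset.card_eq_zero, Finset.filter_eq_empty_iff]
      intro j hj
      rw [Finset.mem_range] at hj
      rw [← Function.iterate_add_apply, not_lt]
      exact hlong (j + (i + 1)) (by omega) (by omega)
    rw [this, add_zero]
  rw [h3] at h2
  set c : ℝ := (cnt (i + 1) (1 / 2) y : ℝ) with hc
  have hc0 : 0 ≤ c := Nat.cast_nonneg _
  have hA : (0 : ℝ) < ((i + 1 : ℕ) : ℝ) := by positivity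
  have hB : (0 : ℝ) < ((i + 1 + (i / 4 + 1) : ℕ) : ℝ) := by positivity
  have hAB : 5 * ((i + 1 : ℕ) : ℝ) ≤ 4 * ((i + 1 + (i / 4 + 1) : ℕ) : ℝ) := by
    have : 5 * (i + 1) ≤ 4 * (i + 1 + (i / 4 + 1)) := by omega
    exact_mod_cast this
  have h4 : c < 21 / 20 * g * ((i + 1 : ℕ) : ℝ) := by
    have := h1.2
    have h5 : c / ((i + 1 : ℕ) : ℝ) < 21 / 20 * g := by linarith
    rwa [div_lt_iff₀ hA] at h5
  have h5 : 19 / 20 * g * ((i + 1 + (i / 4 + 1) : ℕ) : ℝ) < c := by
    have := h2.1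
    have h5 : 19 / 20 * g < c / ((i + 1 + (i / 4 + 1) : ℕ) : ℝ) := by linarith
    rwa [lt_div_iff₀ hB] at h5
  nlinarith

end

end Pool.Agent.Q274.CF
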